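import Mathlib

namespace Pool.Agent.P.MP_dee2e2_lc
open Finset

variable {k : ℕ}

def cr (τ w : Fin k → ℕ) (d : Fin k) : ℕ := 2 + ∑ a ∈ univ.filter (fun a => τ a < τ d), w a

def Ssum (D : Finset (Fin k)) (τ w : Fin k → ℕ) : ℕ := ∑ d ∈ D, cr τ w d

lemma two_le_cr (τ w : Fin k → ℕ) (d : Fin k) : 2 ≤ cr τ w d := by
  unfold cr; omega

lemma cr_refresh (τ w w' : Fin k → ℕ) (t : Fin k) (N : ℕ) (hN : ∀ a, τ a < N)
    (hw : ∀ a, a ≠ t → w' a ≤ w a) (d : Fin k) (hd : d ≠ t) :
    cr (Function.update τ t N) w' d + (if τ t < τ d then w t else 0) ≤ cr τ w d := by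
  unfold cr
  have h1 : univ.filter (fun a => Function.update τ t N a < Function.update τ t N d)
      = (univ.filter (fun a => τ a < τ d)).erase t := by
    ext a
    simp only [mem_filter, mem_univ, true_and, mem_erase, Function.update_of_ne hd]
    by_cases ha : a = t
    · subst ha
      simp only [Function.update_self, ne_eq, not_true_eq_false, false_and, iff_false, not_lt]
      exact (hN d).le
    · simp [Function.update_of_ne ha, ha]
  rw [h1]
  have h2 : ∑ a ∈ (univ.filter (fun a => τ a < τ d)).erase t, w' a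
      ≤ ∑ a ∈ (univ.filter (fun a => τ a < τ d)).erase t, w a :=
    sum_le_sum fun a ha => hw a (ne_of_mem_erase ha)
  split_ifs with h
  · have h3 := Finset.sum_erase_add (univ.filter (fun a => τ a < τ d)) w
      (a := t) (by simp [h])
    omega
  · have h3 : (univ.filter (fun a => τ a < τ d)).erase t = univ.filter (fun a => τ a < τ d) :=
      erase_eq_of_notMem (by simp [h])
    rw [h3] at h2 ⊢
    omega

lemma cr_kill (τ w' : Fin k → ℕ) (t : Fin k) (N : ℕ) (hN : ∀ a, τ a < N)
    (hw : ∀ a, w' a ≤ 2) (e : Fin k) (he : e ≠ t) (b : ℕ)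
    (hb : b = 0 ∨ (b = 1 ∧ ∃ a, a ≠ t ∧ a ≠ e ∧ w' a ≤ 1)) :
    cr (Function.update τ t N) w' e + 2 + b ≤ 2 * k := by
  unfold cr
  have hsub : univ.filter (fun a => Function.update τ t N a < Function.update τ t N e)
      ⊆ (univ.erase t).erase e := by
    intro a ha
    simp only [mem_filter, mem_univ, true_and, Function.update_of_ne he] at ha
    have hat : a ≠ t := by
      rintro rfl
      simp only [Function.update_self] at ha
      exact absurd (hN e) (by omega)
    have hae : a ≠ e := by
      rintro rfl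
      rw [Function.update_of_ne hat] at ha
      omega
    simp [hat, hae]
  have h1 := sum_le_sum_of_subset (f := w') hsub
  have hc : ((univ.erase t).erase e).card + 2 = k := by
    have := card_erase_add_one (s := univ.erase t) (a := e) (by simp [he])
    have h2 := card_erase_add_one (s := (univ : Finset (Fin k))) (a := t) (by simp)
    simp only [card_univ, Fintype.card_fin] at h2
    omega
  rcases hb with rfl | ⟨rfl, a, hat, hae, ha⟩
  · have h2 : ∑ a ∈ (univ.erase t).erase e, w' a ≤ ((univ.erase t).erase e).card * 2 := by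
      have := Finset.sum_le_card_nsmul ((univ.erase t).erase e) w' 2 (fun a _ => hw a)
      simpa using this
    omega
  · have hm : a ∈ (univ.erase t).erase e := by simp [hat, hae]
    have h3 := Finset.sum_erase_add ((univ.erase t).erase e) w' hm
    have h2 : ∑ x ∈ ((univ.erase t).erase e).erase a, w' x
        ≤ (((univ.erase t).erase e).erase a).card * 2 := by
      have := Finset.sum_le_card_nsmul (((univ.erase t).erase e).erase a) w' 2 (fun a _ => hw a)
      simpa using this
    have h4 := card_erase_add_one hm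
    omega

/-- main comparison of credit sums after refreshing `t` -/
lemma Ssum_refresh (τ w w' : Fin k → ℕ) (t : Fin k) (N : ℕ) (hN : ∀ a, τ a < N)
    (hw : ∀ a, a ≠ t → w' a ≤ w a) (D D' D0 E : Finset (Fin k)) (h0 : D0 ⊆ D) (ht : t ∉ D0)
    (hD' : D' ⊆ D0 ∪ E) (n : ℕ) (hn : n = 0 ∨ (n = w t ∧ ∀ d ∈ D0, τ t < τ d)) :
    Ssum D' (Function.update τ t N) w' + 2 * (D \ D0).card + n * D0.card
      ≤ Ssum D τ w + Ssum E (Function.update τ t N) w' := by
  unfold Ssum
  have h1 : ∑ d ∈ D', cr (Function.update τ t N) w' d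
      ≤ ∑ d ∈ D0, cr (Function.update τ t N) w' d + ∑ d ∈ E, cr (Function.update τ t N) w' d := by
    refine (sum_le_sum_of_subset hD').trans ?_
    rw [← sum_union_inter]
    omega
  have h2 : ∑ d ∈ D0, (cr (Function.update τ t N) w' d + n) ≤ ∑ d ∈ D0, cr τ w d := by
    refine sum_le_sum fun d hd => ?_
    have := cr_refresh τ w w' t N hN hw d (fun h => ht (h ▸ hd))
    rcases hn with rfl | ⟨rfl, hn⟩
    · omega
    · rw [if_pos (hn d hd)] at this
      exact this
  rw [sum_add_distrib, sum_const, smul_eq_mul] at h2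
  have h3 := sum_sdiff (f := cr τ w) h0
  have h4 : (D \ D0).card * 2 ≤ ∑ d ∈ D \ D0, cr τ w d := by
    have := Finset.card_nsmul_le_sum (D \ D0) (cr τ w) 2 (fun d _ => two_le_cr τ w d)
    simpa using this
  have h5 : n * D0.card = D0.card * n := Nat.mul_comm _ _
  omega

lemma Ssum_perm (π : Equiv.Perm (Fin k)) (D : Finset (Fin k)) (τ w : Fin k → ℕ) :
    Ssum (univ.filter (fun a => π a ∈ D)) (τ ∘ π) (w ∘ π) = Ssum D τ w := by
  unfold Ssum
  have hc : ∀ d, cr (τ ∘ π) (w ∘ π) d = cr τ w (π d) := by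
    intro d
    unfold cr
    congr 1
    refine Finset.sum_equiv π ?_ ?_
    · intro i; simp
    · intro i _; rfl
  refine Finset.sum_equiv π ?_ ?_
  · intro i; simp
  · intro i _; exact hc i

lemma Ssum_empty (τ w : Fin k → ℕ) : Ssum ∅ τ w = 0 := by simp [Ssum]

lemma Ssum_single (τ w : Fin k → ℕ) (e : Fin k) : Ssum {e} τ w = cr τ w e := by simp [Ssum]

end Pool.Agent.P.MP_dee2e2_lc
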