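import Pool.Agent.P.MP_dee2e2_lc.Defs
import Pool.Agent.P.MP_dee2e2_lc.Sum

namespace Pool.Agent.P.MP_dee2e2_lc
open Finset
open scoped Classical

variable {k : ℕ} {P : Type}

structure St (k : ℕ) (P : Type) where
  c : Fin k → Option P
  R : Fin k → Option P
  τ : Fin k → ℕ

noncomputable def St.new (S : St k P) : ℕ := univ.sup S.τ + 1

lemma St.lt_new (S : St k P) (a : Fin k) : S.τ a < S.new := by
  have : S.τ a ≤ univ.sup S.τ := Finset.le_sup (f := S.τ) (mem_univ a)
  unfold St.new; omega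

noncomputable def delcov (S : St k P) (t : Fin k) : Fin k → Option P :=
  fun r => if r ≠ t ∧ S.R r = S.c t ∧ S.c r ≠ S.c t then none else S.R r

noncomputable def opL (S : St k P) (p : P) (t : Fin k) : St k P :=
  ⟨Function.update S.c t (some p), delcov S t, Function.update S.τ t S.new⟩

noncomputable def opO (S : St k P) (p : P) (t : Fin k) : St k P :=
  ⟨Function.update S.c t (some p), Function.update S.R t (some p), Function.update S.τ t S.new⟩

noncomputable def wc (S : St k P) (t : Fin k) : Option P :=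
  if ∃ r, r ≠ t ∧ S.c r = S.c t then none else S.c t

noncomputable def wR (S : St k P) (t : Fin k) : Fin k → Option P :=
  if ∃ r, r ≠ t ∧ S.c r = S.c t then S.R else delcov S t

noncomputable def opW (S : St k P) (p : P) (t s : Fin k) : St k P :=
  ⟨Function.update (Function.update S.c s (wc S t)) t (some p),
   Function.update (wR S t) t (some p),
   Function.update (Function.update S.τ s (S.τ t)) t S.new⟩

structure Inv (S : St k P) : Prop where
  inj : Function.Injective S.τ
  uniq : ∀ s, S.c s ≠ none → S.R s ≠ S.c s → ∀ r, r ≠ s → S.c r ≠ S.c s ∧ S.R r ≠ S.c s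
  cov : ∀ r r', S.R r ≠ none → S.R r' = S.R r → S.c r ≠ S.R r → S.c r' ≠ S.R r → r = r'

def Fx (S : St k P) (Y : Cache k P) (s : Fin k) : Prop := Y s = S.R s ∧ S.R s ≠ none

def plain (S : St k P) (Y : Cache k P) (o : Option P) : Prop :=
  o ≠ none ∧ (∃ j, Y j = o) ∧ ∀ j, Y j = o → S.R j ≠ o

def pin (S : St k P) (s : Fin k) : Prop := S.c s = S.R s ∧ S.c s ≠ none

def sole (S : St k P) (s : Fin k) : Prop := ∀ r, r ≠ s → S.R r ≠ S.c s

def alive (S : St k P) (Y : Cache k P) (s : Fin k) : Prop :=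
  (pin S s ∧ Y s = S.c s) ∨ (plain S Y (S.c s) ∧ sole S s)

noncomputable def dead (S : St k P) (Y : Cache k P) : Finset (Fin k) :=
  univ.filter (fun s => ¬ alive S Y s)

noncomputable def wt (S : St k P) (s : Fin k) : ℕ := if pin S s then 2 else 1

noncomputable def uset (S : St k P) (Y : Cache k P) : Finset (Fin k) :=
  univ.filter (fun s => ¬ Fx S Y s)

noncomputable def zset (S : St k P) (Y : Cache k P) : Finset (Option P) :=
  (univ.image Y).filter (fun o => o ≠ none ∧ (∀ s, S.R s ≠ o) ∧ ∀ s, S.c s ≠ o)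

noncomputable def kap (S : St k P) (Y : Cache k P) : ℕ :=
  if ∀ s, pin S s ∧ alive S Y s then 1 else 0

noncomputable def Phi (S : St k P) (Y : Cache k P) : ℕ :=
  2 * (uset S Y).card + Ssum (dead S Y) S.τ (wt S) + kap S Y

lemma wt_le (S : St k P) (s : Fin k) : wt S s ≤ 2 := by
  unfold wt; split_ifs <;> omega

lemma one_le_wt (S : St k P) (s : Fin k) : 1 ≤ wt S s := by
  unfold wt; split_ifs <;> omega

lemma wt_pin {S : St k P} {s : Fin k} (h : pin S s) : wt S s = 2 := by
  unfold wt; rw [if_pos h]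

lemma wt_npin {S : St k P} {s : Fin k} (h : ¬ pin S s) : wt S s = 1 := by
  unfold wt; rw [if_neg h]

lemma kap_le (S : St k P) (Y : Cache k P) : kap S Y ≤ 1 := by
  unfold kap; split_ifs <;> omega

lemma kap_zero_of_npin {S : St k P} (Y : Cache k P) {s : Fin k} (h : ¬ pin S s) :
    kap S Y = 0 := by
  unfold kap; rw [if_neg]; intro h'; exact h (h' s).1

lemma kap_zero_of_dead {S : St k P} {Y : Cache k P} (h : 1 ≤ (dead S Y).card) :
    kap S Y = 0 := by
  unfold kap; rw [if_neg]; intro h'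
  obtain ⟨s, hs⟩ := card_pos.mp h
  simp only [dead, mem_filter, mem_univ, true_and] at hs
  exact hs (h' s).2

lemma mem_dead {S : St k P} {Y : Cache k P} {s : Fin k} : s ∈ dead S Y ↔ ¬ alive S Y s := by
  simp [dead]

lemma mem_uset {S : St k P} {Y : Cache k P} {s : Fin k} : s ∈ uset S Y ↔ ¬ Fx S Y s := by
  simp [uset]

lemma mem_zset {S : St k P} {Y : Cache k P} {o : Option P} :
    o ∈ zset S Y ↔ (∃ j, Y j = o) ∧ o ≠ none ∧ (∀ s, S.R s ≠ o) ∧ ∀ s, S.c s ≠ o := by
  simp [zset]

lemma zset_card_le (S : St k P) (Y : Cache k P) : (zset S Y).card ≤ k := by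
  refine (card_filter_le _ _).trans (card_image_le.trans ?_)
  simp

/-- a sole copy is the only copy -/
lemma sole_unique {S : St k P} (hI : Inv S) {s r : Fin k} (hs : sole S s) (hn : S.c s ≠ none)
    (hr : r ≠ s) : S.c r ≠ S.c s := by
  intro h
  by_cases hR : S.R r = S.c r
  · exact hs r hr (hR.trans h)
  · exact (hI.uniq r (h ▸ hn) hR s hr.symm).1 h.symm

/-- counting lemma -/
lemma missed_le_dead {S : St k P} (hI : Inv S) (Y : Cache k P) (M : Finset (Fin k))
    (hM : ∀ j ∈ M, (∀ s, S.c s ≠ Y j) ∨ (Fx S Y j ∧ S.c j ≠ S.R j)) :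
    M.card ≤ (dead S Y).card := by
  let f : Fin k → Fin k := fun s =>
    if pin S s ∧ Y s = S.c s then s else if h : ∃ j, Y j = S.c s then h.choose else s
  have hf : ∀ s, alive S Y s → Y (f s) = S.c s ∧
      ((pin S s ∧ Y s = S.c s ∧ f s = s) ∨
        (plain S Y (S.c s) ∧ sole S s ∧ S.R (f s) ≠ S.c s)) := by
    intro s hs
    by_cases h1 : pin S s ∧ Y s = S.c s
    · have : f s = s := by simp only [f]; rw [if_pos h1]
      rw [this]
      exact ⟨h1.2, Or.inl ⟨h1.1, h1.2, rfl⟩⟩
    · rcases hs with hs | hs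
      · exact absurd hs h1
      · have h2 := hs.1.2.1
        have : f s = h2.choose := by simp only [f]; rw [if_neg h1, dif_pos h2]
        rw [this]
        exact ⟨h2.choose_spec, Or.inr ⟨hs.1, hs.2, hs.1.2.2 _ h2.choose_spec⟩⟩
  have hA : (univ.filter (alive S Y)).card ≤ (univ \ M).card := by
    refine card_le_card_of_injOn f ?_ ?_
    · intro s hs
      simp only [coe_filter, mem_univ, true_and, Set.mem_setOf_eq] at hs
      obtain ⟨h1, h2⟩ := hf s hs
      simp only [coe_sdiff, coe_univ, Set.mem_diff, Set.mem_univ, mem_coe, true_and]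
      intro hm
      rcases hM _ hm with h | h
      · exact h s h1.symm
      · rcases h2 with ⟨hp, -, he⟩ | ⟨-, -, he⟩
        · rw [he] at h; exact h.2 hp.1
        · exact he (h.1.1.symm.trans h1)
    · intro s hs s' hs' he
      simp only [coe_filter, mem_univ, true_and, Set.mem_setOf_eq] at hs hs'
      obtain ⟨h1, h2⟩ := hf s hs
      obtain ⟨h1', h2'⟩ := hf s' hs'
      have hc : S.c s = S.c s' := by rw [← h1, ← h1', he]
      by_contra hne
      rcases h2 with ⟨hp, hy, hs1⟩ | ⟨hp, hso, -⟩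
      · rcases h2' with ⟨-, -, hs2⟩ | ⟨hp', hso', -⟩
        · exact hne (by rw [← hs1, ← hs2, he])
        · exact sole_unique hI hso' hp'.1 hne hc
      · exact sole_unique hI hso hp.1 (Ne.symm hne) hc.symm
  have h1 := Finset.card_filter_add_card_filter_not (s := (univ : Finset (Fin k))) (alive S Y)
  have h2 := card_sdiff_add_card_eq_card (subset_univ M)
  unfold dead
  omega

lemma one_le_dead {S : St k P} (hI : Inv S) (Y : Cache k P) (j : Fin k)
    (h : (∀ s, S.c s ≠ Y j) ∨ (Fx S Y j ∧ S.c j ≠ S.R j)) : 1 ≤ (dead S Y).card := by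
  have := missed_le_dead hI Y {j} (by simpa using h)
  simpa using this

lemma two_le_dead {S : St k P} (hI : Inv S) (Y : Cache k P) (j j' : Fin k) (hne : j ≠ j')
    (h : (∀ s, S.c s ≠ Y j) ∨ (Fx S Y j ∧ S.c j ≠ S.R j))
    (h' : (∀ s, S.c s ≠ Y j') ∨ (Fx S Y j' ∧ S.c j' ≠ S.R j')) : 2 ≤ (dead S Y).card := by
  have := missed_le_dead hI Y {j, j'} (by
    intro a ha
    simp only [mem_insert, mem_singleton] at ha
    rcases ha with rfl | rfl
    · exact h
    · exact h')
  rwa [card_pair hne] at this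

end Pool.Agent.P.MP_dee2e2_lc
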