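import Mathlib

namespace Pool.Agent.P.MP_dee2e2_lc

/-- A request of All-or-One Paging: a page, and either no slot (general request)
or one slot (specific request). -/
structure Request (k : ℕ) (P : Type) where
  page : P
  slot : Option (Fin k)

/-- The content of the `k` cache slots; `none` is an empty slot. -/
abbrev Cache (k : ℕ) (P : Type) := Fin k → Option P

variable {k : ℕ} {P : Type}

/-- A general request is satisfied when some slot holds the page, a specific request when
the named slot holds the page. -/
def Satisfies (C : Cache k P) (r : Request k P) : Prop :=
  match r.slot with
  | none => ∃ s, C s = some r.page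
  | some s => C s = some r.page

/-- The cache after a list of retrievals; the retrieval `(s, q)` puts page `q` into slot `s`. -/
def retrieve (C : Cache k P) (l : List (Fin k × P)) : Cache k P :=
  l.foldl (fun D x => Function.update D x.1 (some x.2)) C

/-- `Serves C σ L`: starting from the cache `C`, the schedule `L` (one list of retrievals for
each request of `σ`) makes every request satisfied before the next one arrives. -/
def Serves : Cache k P → List (Request k P) → List (List (Fin k × P)) → Prop
  | _, [], [] => True
  | C, r :: σ, l :: L => Satisfies (retrieve C l) r ∧ Serves (retrieve C l) σ L
  | _, [], _ :: _ => False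
  | _, _ :: _, [] => False

/-- The cost of a schedule: its total number of retrievals. -/
def cost (L : List (List (Fin k × P))) : ℕ := (L.map List.length).sum

/-- The least cost of a schedule serving `σ` from the starting cache `C₀`. -/
noncomputable def OPT (C₀ : Cache k P) (σ : List (Request k P)) : ℕ :=
  sInf {n | ∃ L, Serves C₀ σ L ∧ cost L = n}

/-- A deterministic online algorithm chooses its retrievals from the earlier requests and the
current request only. -/
def OnlineAlg (k : ℕ) (P : Type) := List (Request k P) → Request k P → List (Fin k × P)

/-- The schedule produced by `A` on the requests `σ` arriving after the requests `past`. -/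
def schedule (A : OnlineAlg k P) : List (Request k P) → List (Request k P) →
    List (List (Fin k × P))
  | _, [] => []
  | past, r :: σ => A past r :: schedule A (past ++ [r]) σ

/-- `A` serves every request sequence from the starting cache `C₀` and, for some constant `b`,
its cost is at most `c * OPT + b` on every request sequence. -/
def Competitive (C₀ : Cache k P) (A : OnlineAlg k P) (c : ℝ) : Prop :=
  (∀ σ, Serves C₀ σ (schedule A [] σ)) ∧
    ∃ b : ℝ, ∀ σ, (cost (schedule A [] σ) : ℝ) ≤ c * (OPT C₀ σ : ℝ) + b

end Pool.Agent.P.MP_dee2e2_lc
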