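import Pool.Agent.P.MP_dee2e2_lc.Alg

namespace Pool.Agent.P.MP_dee2e2_lc
open Finset
open scoped Classical

variable {k : ℕ} {P : Type}

structure GStep (S : St k P) (Y Y' : Cache k P) (p : P) (H E : Finset (Fin k))
    (B : Finset (Option P)) : Prop where
  hY : ∀ r, Y' r = Y r ∨ Y' r = some p
  hH : ∀ a, a ∉ H → Fx S Y a → Y' a = Y a
  hE1 : ∀ a, a ∉ E → pin S a → Y a = S.c a → Y' a = Y a
  hE2 : ∀ a, a ∉ E → plain S Y (S.c a) → sole S a → ∃ r, Y' r = S.c a
  hB : ∀ o ∈ zset S Y, o ∉ B → ∃ r, Y' r = o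

lemma gstep_static (S : St k P) (Y : Cache k P) (p : P) : GStep S Y Y p ∅ ∅ ∅ where
  hY := fun _ => Or.inl rfl
  hH := fun _ _ _ => rfl
  hE1 := fun _ _ _ _ => rfl
  hE2 := fun _ _ h _ => h.2.1
  hB := fun _ ho _ => (mem_zset.mp ho).1

lemma upd_keep (Y : Cache k P) (j : Fin k) (p : P) (o : Option P) (h : ∃ r, Y r = o)
    (hne : o ≠ Y j) : ∃ r, Function.update Y j (some p) r = o := by
  obtain ⟨r, hr⟩ := h
  have : r ≠ j := by rintro rfl; exact hne hr.symm
  exact ⟨r, by rw [Function.update_of_ne this, hr]⟩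

lemma upd_or (Y : Cache k P) (j : Fin k) (p : P) (r : Fin k) :
    Function.update Y j (some p) r = Y r ∨ Function.update Y j (some p) r = some p := by
  by_cases h : r = j
  · subst h; right; simp
  · left; rw [Function.update_of_ne h]

lemma gstep_move {S : St k P} (hI : Inv S) (Y : Cache k P) (j : Fin k) (p : P) :
    (Fx S Y j ∧ GStep S Y (Function.update Y j (some p)) p {j} (if pin S j then {j} else ∅) ∅) ∨
    (¬ Fx S Y j ∧ ∃ e, S.c e = Y j ∧ plain S Y (Y j) ∧ sole S e ∧
      GStep S Y (Function.update Y j (some p)) p ∅ {e} ∅) ∨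
    (¬ Fx S Y j ∧ GStep S Y (Function.update Y j (some p)) p ∅ ∅ {Y j}) := by
  by_cases hF : Fx S Y j
  · left
    refine ⟨hF, upd_or Y j p, ?_, ?_, ?_, ?_⟩
    · intro a ha _
      rw [Function.update_of_ne (by simpa using ha)]
    · intro a ha hp _
      have : a ≠ j := by
        rintro rfl
        rw [if_pos hp] at ha
        simp at ha
      rw [Function.update_of_ne this]
    · intro a _ hp _
      refine upd_keep Y j p _ hp.2.1 ?_
      intro h
      exact hp.2.2 j h.symm (hF.1.symm.trans h.symm)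
    · intro o ho _
      obtain ⟨h1, -, h3, -⟩ := mem_zset.mp ho
      refine upd_keep Y j p _ h1 ?_
      intro h
      exact h3 j (hF.1.symm.trans h.symm)
  · have hH : ∀ a, Fx S Y a → Function.update Y j (some p) a = Y a := by
      intro a ha
      have : a ≠ j := by rintro rfl; exact hF ha
      rw [Function.update_of_ne this]
    have hE1 : ∀ a, pin S a → Y a = S.c a → Function.update Y j (some p) a = Y a := by
      intro a hp hy
      exact hH a ⟨hy.trans hp.1, hp.1 ▸ hp.2⟩
    right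
    by_cases he : ∃ e, S.c e = Y j ∧ plain S Y (Y j) ∧ sole S e
    · left
      obtain ⟨e, he1, he2, he3⟩ := he
      refine ⟨hF, e, he1, he2, he3, upd_or Y j p, fun a _ => hH a, fun a _ => hE1 a, ?_, ?_⟩
      · intro a ha hp _
        refine upd_keep Y j p _ hp.2.1 ?_
        intro h
        have hae : a ≠ e := by simpa using ha
        exact sole_unique hI he3 (he1 ▸ he2.1) hae (h.trans he1.symm)
      · intro o ho _
        obtain ⟨h1, -, -, h4⟩ := mem_zset.mp ho
        refine upd_keep Y j p _ h1 ?_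
        intro h
        exact h4 e (he1.trans h.symm)
    · right
      refine ⟨hF, upd_or Y j p, fun a _ => hH a, fun a _ => hE1 a, ?_, ?_⟩
      · intro a _ hp hs
        refine upd_keep Y j p _ hp.2.1 ?_
        intro h
        exact he ⟨a, h, h ▸ hp, hs⟩
      · intro o ho hb
        exact upd_keep Y j p _ (mem_zset.mp ho).1 (by simpa using hb)

lemma plain_pres {S S' : St k P} {Y Y' : Cache k P} {p : P} {o : Option P}
    (hR : ∀ r, S'.R r = S.R r ∨ S'.R r = none ∨ S'.R r = some p)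
    (hY : ∀ r, Y' r = Y r ∨ Y' r = some p) (hp : o ≠ some p) (h : plain S Y o)
    (ht : ∃ r, Y' r = o) : plain S' Y' o := by
  refine ⟨h.1, ht, fun j hj => ?_⟩
  have h1 : Y j = o := by
    rcases hY j with h' | h'
    · exact h'.symm.trans hj
    · exact absurd (hj.symm.trans h') hp
  rcases hR j with h' | h' | h'
  · rw [h']; exact h.2.2 j h1
  · rw [h']; exact h.1.symm
  · rw [h']; exact hp.symm

lemma alive_pres {S S' : St k P} {Y Y' : Cache k P} {p : P} {H E : Finset (Fin k)}
    {B : Finset (Option P)} (G : GStep S Y Y' p H E B)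
    (hR : ∀ r, S'.R r = S.R r ∨ S'.R r = none ∨ S'.R r = some p) {a : Fin k} (ha : a ∉ E)
    (hc : S'.c a = S.c a) (hRa : pin S a → S'.R a = S.R a)
    (hp : sole S a → S.c a ≠ some p) (h : alive S Y a) : alive S' Y' a := by
  rcases h with ⟨h1, h2⟩ | ⟨h1, h2⟩
  · left
    refine ⟨⟨?_, ?_⟩, ?_⟩
    · rw [hc, hRa h1]; exact h1.1
    · rw [hc]; exact h1.2
    · rw [hc, G.hE1 a ha h1 h2, h2]
  · right
    rw [hc]
    refine ⟨plain_pres hR G.hY (hp h2) h1 (G.hE2 a ha h1 h2), fun r hr => ?_⟩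
    rw [hc]
    rcases hR r with h' | h' | h'
    · rw [h']; exact h2 r hr
    · rw [h']; exact h1.1.symm
    · rw [h']; exact (hp h2).symm

lemma zset_pres {S S' : St k P} {Y Y' : Cache k P} {p : P} {H E : Finset (Fin k)}
    {B : Finset (Option P)} (G : GStep S Y Y' p H E B)
    (hR : ∀ r, S'.R r = S.R r ∨ S'.R r = none ∨ S'.R r = some p)
    (hc : ∀ r, S'.c r = some p ∨ S'.c r = none ∨ ∃ r', S'.c r = S.c r')
    {o : Option P} (ho : o ∈ zset S Y) (hb : o ∉ B) (hp : o ≠ some p) : o ∈ zset S' Y' := by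
  obtain ⟨-, h2, h3, h4⟩ := mem_zset.mp ho
  refine mem_zset.mpr ⟨G.hB o ho hb, h2, fun s => ?_, fun s => ?_⟩
  · rcases hR s with h' | h' | h'
    · rw [h']; exact h3 s
    · rw [h']; exact h2.symm
    · rw [h']; exact hp.symm
  · rcases hc s with h' | h' | ⟨r', h'⟩
    · rw [h']; exact hp.symm
    · rw [h']; exact h2.symm
    · rw [h']; exact h4 r'

/-- cardinality bookkeeping for the free floating pages -/
lemma zcard {S S' : St k P} {Y Y' : Cache k P} {p : P} {H E : Finset (Fin k)}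
    {B : Finset (Option P)} (G : GStep S Y Y' p H E B)
    (hR : ∀ r, S'.R r = S.R r ∨ S'.R r = none ∨ S'.R r = some p)
    (hc : ∀ r, S'.c r = some p ∨ S'.c r = none ∨ ∃ r', S'.c r = S.c r') (t : Fin k) :
    (zset S Y).card + (if S.c t ∈ zset S' Y' then 1 else 0) ≤
      (zset S' Y').card + B.card + (if some p ∈ zset S Y then 1 else 0) := by
  have hx : S.c t ∉ zset S Y := fun h => (mem_zset.mp h).2.2.2 t rfl
  have h1 : (zset S Y).erase (some p) ⊆ ((zset S' Y').erase (S.c t)) ∪ B := by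
    intro o ho
    obtain ⟨hp, ho⟩ := mem_erase.mp ho
    by_cases hb : o ∈ B
    · exact mem_union_right _ hb
    · refine mem_union_left _ (mem_erase.mpr ⟨?_, zset_pres G hR hc ho hb hp⟩)
      rintro rfl; exact hx ho
  have h2 := (card_le_card h1).trans (card_union_le _ _)
  have h3 : (zset S Y).card ≤ ((zset S Y).erase (some p)).card +
      (if some p ∈ zset S Y then 1 else 0) := by
    split_ifs with h
    · exact (card_erase_add_one h).ge
    · rw [erase_eq_of_notMem h]; omega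
  have h4 : ((zset S' Y').erase (S.c t)).card + (if S.c t ∈ zset S' Y' then 1 else 0)
      ≤ (zset S' Y').card := by
    split_ifs with h
    · exact (card_erase_add_one h).le
    · rw [erase_eq_of_notMem h]; omega
  omega

lemma delcov_or (S : St k P) (t r : Fin k) : delcov S t r = S.R r ∨ delcov S t r = none := by
  unfold delcov; split_ifs
  · right; rfl
  · left; rfl

lemma delcov_pin (S : St k P) (t : Fin k) {a : Fin k} (h : pin S a) : delcov S t a = S.R a := by
  unfold delcov; rw [if_neg]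
  rintro ⟨-, h2, h3⟩
  exact h3 (h.1.trans h2)

lemma delcov_self (S : St k P) (t : Fin k) : delcov S t t = S.R t := by
  unfold delcov; rw [if_neg]; simp

lemma del_cases {S : St k P} (hI : Inv S) (Y : Cache k P) (t : Fin k) :
    ∃ Del : Finset (Fin k), (∀ a, a ∉ Del → Fx S Y a → delcov S t a = S.R a) ∧
      (Del = ∅ ∨ ∃ r, Del = {r} ∧ r ≠ t ∧ S.R r = S.c t ∧ S.c r ≠ S.c t ∧ Fx S Y r) := by
  by_cases h : ∃ r, r ≠ t ∧ S.R r = S.c t ∧ S.c r ≠ S.c t ∧ Fx S Y r
  · obtain ⟨r, h1, h2, h3, h4⟩ := h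
    refine ⟨{r}, fun a ha hF => ?_, Or.inr ⟨r, rfl, h1, h2, h3, h4⟩⟩
    unfold delcov; rw [if_neg]
    rintro ⟨-, g2, g3⟩
    have : a = r := hI.cov a r hF.2 (h2.trans g2.symm) (g2 ▸ g3) (g2 ▸ h3)
    exact ha (by simp [this])
  · refine ⟨∅, fun a _ hF => ?_, Or.inl rfl⟩
    unfold delcov; rw [if_neg]
    rintro ⟨g1, g2, g3⟩
    exact h ⟨a, g1, g2, g3, hF⟩

lemma ucard {S S' : St k P} {Y Y' : Cache k P} (A G : Finset (Fin k))
    (hA : ∀ a, a ∉ A → Fx S Y a → Fx S' Y' a) (hG : ∀ a ∈ G, ¬ Fx S Y a ∧ Fx S' Y' a) :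
    (uset S' Y').card + G.card ≤ (uset S Y).card + A.card := by
  have h1 : uset S' Y' ⊆ (uset S Y \ G) ∪ A := by
    intro a ha
    by_cases h : a ∈ A
    · exact mem_union_right _ h
    · refine mem_union_left _ (mem_sdiff.mpr ⟨?_, fun hg => ?_⟩)
      · rw [mem_uset] at ha ⊢
        exact fun hF => ha (hA a h hF)
      · exact mem_uset.mp ha (hG a hg).2
  have h2 := (card_le_card h1).trans (card_union_le _ _)
  have h3 : G ⊆ uset S Y := fun a ha => mem_uset.mpr (hG a ha).1
  have h4 := card_sdiff_add_card_eq_card h3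
  omega

end Pool.Agent.P.MP_dee2e2_lc
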