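import Pool.Agent.P.MP_dee2e2_lc.OpW

namespace Pool.Agent.P.MP_dee2e2_lc
open Finset
open scoped Classical

variable {k : ℕ} {P : Type}

noncomputable def ham (Y X : Cache k P) : ℕ := (univ.filter (fun a => Y a ≠ X a)).card

def below (c C : Cache k P) : Prop := ∀ a q, c a = some q → C a = some q

lemma ham_upd (Y X : Cache k P) (j : Fin k) (p : P) (hX : X j = some p) (hY : Y j ≠ some p) :
    ham (Function.update Y j (some p)) X + 1 = ham Y X := by
  unfold ham
  have : univ.filter (fun a => Function.update Y j (some p) a ≠ X a)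
      = (univ.filter (fun a => Y a ≠ X a)).erase j := by
    ext a
    simp only [mem_filter, mem_univ, true_and, mem_erase]
    by_cases h : a = j
    · subst h; simp [hX]
    · simp [h]
  rw [this]
  exact card_erase_add_one (by simp [hX, hY])

lemma ham_upd_right (Y X : Cache k P) (j : Fin k) (o : Option P) :
    ham Y (Function.update X j o) ≤ ham Y X + 1 := by
  unfold ham
  have : univ.filter (fun a => Y a ≠ Function.update X j o a)
      ⊆ insert j (univ.filter (fun a => Y a ≠ X a)) := by
    intro a ha
    simp only [mem_filter, mem_univ, true_and, mem_insert] at ha ⊢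
    by_cases h : a = j
    · exact Or.inl h
    · rw [Function.update_of_ne h] at ha; exact Or.inr ha
  exact (card_le_card this).trans (card_insert_le _ _)

lemma ham_retrieve (Y : Cache k P) (l : List (Fin k × P)) :
    ∀ X : Cache k P, ham Y (retrieve X l) ≤ ham Y X + l.length := by
  induction l with
  | nil => intro X; simp [retrieve]
  | cons x l ih =>
    intro X
    have h1 := ih (Function.update X x.1 (some x.2))
    have h2 := ham_upd_right Y X x.1 (some x.2)
    have h3 : retrieve X (x :: l) = retrieve (Function.update X x.1 (some x.2)) l := rfl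
    rw [h3, List.length_cons]
    omega

lemma below_upd {c C : Cache k P} (h : below c C) (t : Fin k) (p : P) :
    below (Function.update c t (some p)) (Function.update C t (some p)) := by
  intro a q ha
  by_cases hat : a = t
  · subst hat; simpa using ha
  · rw [Function.update_of_ne hat] at ha ⊢; exact h a q ha

lemma below_none {c C : Cache k P} (h : below c C) (t : Fin k) :
    below (Function.update c t none) C := by
  intro a q ha
  by_cases hat : a = t
  · subst hat; simp at ha
  · rw [Function.update_of_ne hat] at ha; exact h a q ha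

lemma sat_below {c C : Cache k P} (h : below c C) {r : Request k P} (hr : Satisfies c r) :
    Satisfies C r := by
  obtain ⟨p, _ | t⟩ := r
  · obtain ⟨s, hs⟩ := hr
    exact ⟨s, h s p hs⟩
  · exact h t p hr

/-- what one step of the algorithm achieves -/
def Good (S : St k P) (r : Request k P) (S' : St k P) (l : List (Fin k × P)) : Prop :=
  Inv S' ∧ Satisfies S'.c r ∧ (∀ C, below S.c C → below S'.c (retrieve C l)) ∧
    ∀ Y X : Cache k P, Satisfies X r → ∃ Y' : Cache k P,
      Phi S' Y' + (zset S Y).card + l.length + 2 * k * ham Y' X ≤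
        Phi S Y + (zset S' Y').card + 2 * k * ham Y X

lemma good_of {S S' : St k P} {r : Request k P} {l : List (Fin k × P)} (n : ℕ)
    (hn : l.length ≤ n) (h1 : Inv S') (h2 : Satisfies S'.c r)
    (h3 : ∀ C, below S.c C → below S'.c (retrieve C l))
    (h4 : ∀ Y, Satisfies Y r →
      Phi S' Y + (zset S Y).card + n ≤ Phi S Y + (zset S' Y).card)
    (h5 : ∀ Y j, ¬ Satisfies Y r → (∀ t, r.slot = some t → j = t) →
      Phi S' (Function.update Y j (some r.page)) + (zset S Y).card + n ≤
        Phi S Y + (zset S' (Function.update Y j (some r.page))).card + 2 * k) :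
    Good S r S' l := by
  refine ⟨h1, h2, h3, fun Y X hX => ?_⟩
  by_cases hY : Satisfies Y r
  · exact ⟨Y, by have := h4 Y hY; omega⟩
  · obtain ⟨p, _ | t⟩ := r
    · obtain ⟨j, hj⟩ := hX
      refine ⟨Function.update Y j (some p), ?_⟩
      have e1 := h5 Y j hY (by simp)
      have e2 := ham_upd Y X j p hj (fun h => hY ⟨j, h⟩)
      rw [← e2, Nat.mul_add]
      simp only at e1
      omega
    · refine ⟨Function.update Y t (some p), ?_⟩
      have e1 := h5 Y t hY (by simp)
      have e2 := ham_upd Y X t p hX hY
      rw [← e2, Nat.mul_add]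
      simp only at e1
      omega

lemma exists_oldest (hk : 1 ≤ k) {S : St k P} (hI : Inv S) :
    ∃ t, ∀ s, s ≠ t → S.τ t < S.τ s := by
  obtain ⟨t, -, ht⟩ := Finset.exists_min_image (univ : Finset (Fin k)) S.τ ⟨⟨0, hk⟩, mem_univ _⟩
  exact ⟨t, fun s hs => lt_of_le_of_ne (ht s (mem_univ s)) (fun h => hs (hI.inj h).symm)⟩

theorem step_spec (hk : 1 ≤ k) (S : St k P) (hI : Inv S) (r : Request k P) :
    ∃ S' l, Good S r S' l := by
  by_cases hs : Satisfies S.c r
  · exact ⟨S, [], hI, hs, fun C h => h, fun Y X _ => ⟨Y, by simp⟩⟩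
  obtain ⟨p, _ | t⟩ := r
  · have habs : ∀ s, S.c s ≠ some p := fun s h => hs ⟨s, h⟩
    by_cases hR : ∃ t, S.R t = some p
    · obtain ⟨t, ht⟩ := hR
      refine ⟨opO S p t, [(t, p)], good_of 1 (by simp) (inv_opO hI fun s _ _ => habs s)
        ⟨t, opO_c_self⟩ (fun C h => below_upd h t p) (fun Y hY => O_static_gen hI habs ht hY)
        (fun Y j hY _ => O_move_gen hI habs ht (fun a h => hY ⟨a, h⟩) j)⟩
    · have hrec : ∀ s, S.R s ≠ some p := fun s h => hR ⟨s, h⟩
      obtain ⟨t, ht⟩ := exists_oldest hk hI
      refine ⟨opL S p t, [(t, p)], good_of 1 (by simp) (inv_opL hI habs hrec)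
        ⟨t, opL_c_self⟩ (fun C h => below_upd h t p) (fun Y hY => L_static hI habs hrec ht hY)
        (fun Y j hY _ => L_move hI habs hrec ht (fun a h => hY ⟨a, h⟩) j)⟩
  · have hct : S.c t ≠ some p := hs
    by_cases hW : ∃ s, S.c s = some p ∧ sole S s
    · obtain ⟨s, h1, h2⟩ := hW
      have h4 : ∀ Y : Cache k P, Satisfies Y ⟨p, some t⟩ →
          Phi (opW S p t s) Y + (zset S Y).card + 2 ≤ Phi S Y + (zset (opW S p t s) Y).card :=
        fun Y hY => W_static hI h1 h2 hct hY
      have h5 : ∀ (Y : Cache k P) (j : Fin k), ¬ Satisfies Y ⟨p, some t⟩ →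
          (∀ t', some t = some t' → j = t') →
          Phi (opW S p t s) (Function.update Y j (some p)) + (zset S Y).card + 2 ≤
            Phi S Y + (zset (opW S p t s) (Function.update Y j (some p))).card + 2 * k := by
        intro Y j hY hj
        rw [hj t rfl]
        exact W_move hI h1 h2 hct hY
      rcases hw : wc S t with _ | x
      · refine ⟨opW S p t s, [(t, p)], good_of 2 (by simp) (inv_opW hI h1 h2 hct)
          opW_c_t (fun C h => ?_) h4 h5⟩
        have := below_upd (below_none h s) t p
        rw [← hw] at this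
        exact this
      · refine ⟨opW S p t s, [(s, x), (t, p)], good_of 2 (by simp) (inv_opW hI h1 h2 hct)
          opW_c_t (fun C h => ?_) h4 h5⟩
        have := below_upd (below_upd h s x) t p
        rw [← hw] at this
        have e : retrieve C [(s, x), (t, p)] =
            Function.update (Function.update C s (wc S t)) t (some p) := by rw [hw]; rfl
        rw [e]
        exact this
    · have hns : ∀ s, s ≠ t → sole S s → S.c s ≠ some p := fun s _ h1 h2 => hW ⟨s, h2, h1⟩
      refine ⟨opO S p t, [(t, p)], good_of 1 (by simp) (inv_opO hI hns)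
        opO_c_self (fun C h => below_upd h t p) (fun Y hY => O_static_spec hI hct hns hY)
        (fun Y j hY hj => ?_)⟩
      rw [hj t rfl]
      exact O_move_spec hI hns hY

/-- the starting state -/
def S0 (k : ℕ) (P : Type) : St k P := ⟨fun _ => none, fun _ => none, fun a => a.val⟩

lemma inv_S0 : Inv (S0 k P) :=
  ⟨fun _ _ h => Fin.ext h, fun _ h => absurd rfl h, fun _ _ h => absurd rfl h⟩

theorem run_spec (f : St k P → Request k P → St k P)
    (g : St k P → Request k P → List (Fin k × P))
    (hfg : ∀ S r, Inv S → Good S r (f S r) (g S r)) (σ : List (Request k P)) :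
    ∀ past : List (Request k P), Inv (past.foldl f (S0 k P)) →
      (∀ C, below (past.foldl f (S0 k P)).c C →
        Serves C σ (schedule (fun q r => g (q.foldl f (S0 k P)) r) past σ)) ∧
      ∀ (X Y : Cache k P) (L : List (List (Fin k × P))), Serves X σ L →
        cost (schedule (fun q r => g (q.foldl f (S0 k P)) r) past σ) +
          (zset (past.foldl f (S0 k P)) Y).card ≤
        2 * k * cost L + Phi (past.foldl f (S0 k P)) Y + 2 * k * ham Y X + k := by
  induction σ with
  | nil =>
    intro past _
    refine ⟨fun C _ => trivial, fun X Y L _ => ?_⟩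
    have := zset_card_le (past.foldl f (S0 k P)) Y
    simp only [schedule, cost, List.map_nil, List.sum_nil]
    omega
  | cons r σ ih =>
    intro past hI
    obtain ⟨g1, g2, g3, g4⟩ := hfg _ r hI
    have e : (past ++ [r]).foldl f (S0 k P) = f (past.foldl f (S0 k P)) r := by simp
    obtain ⟨i1, i2⟩ := ih (past ++ [r]) (e ▸ g1)
    rw [e] at i1 i2
    refine ⟨fun C hC => ⟨sat_below (g3 C hC) g2, i1 _ (g3 C hC)⟩, fun X Y L hL => ?_⟩
    cases L with
    | nil => exact absurd hL (by simp [Serves])
    | cons l L =>
      obtain ⟨s1, s2⟩ := hL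
      obtain ⟨Y', hY'⟩ := g4 Y _ s1
      have j1 := i2 _ Y' L s2
      have j2 := Nat.mul_le_mul_left (2 * k) (ham_retrieve Y l X)
      rw [Nat.mul_add] at j2
      have c1 : cost (l :: L) = l.length + cost L := by simp [cost]
      have c2 : cost (schedule (fun q r => g (q.foldl f (S0 k P)) r) past (r :: σ)) =
          (g (past.foldl f (S0 k P)) r).length +
          cost (schedule (fun q r => g (q.foldl f (S0 k P)) r) (past ++ [r]) σ) := by
        simp [cost, schedule]
      rw [c1, c2, Nat.mul_add]
      omega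

theorem upper_two_k (k : ℕ) (hk : 1 ≤ k) (P : Type) (C₀ : Cache k P) :
    ∃ A : OnlineAlg k P, Competitive C₀ A (2 * (k : ℝ)) := by
  have h : ∀ (S : St k P) (r : Request k P), ∃ x : St k P × List (Fin k × P),
      Inv S → Good S r x.1 x.2 := by
    intro S r
    by_cases hI : Inv S
    · obtain ⟨S', l, h⟩ := step_spec hk S hI r
      exact ⟨(S', l), fun _ => h⟩
    · exact ⟨(S, []), fun h => absurd h hI⟩
  choose F hF using h
  have key := fun σ => run_spec (fun S r => (F S r).1) (fun S r => (F S r).2) hF σ [] inv_S0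
  have hser := fun σ => (key σ).1 C₀ (fun _ _ h => by simp [S0] at h)
  refine ⟨_, hser, (Phi (S0 k P) C₀ + k : ℕ), fun σ => ?_⟩
  have hne : {n | ∃ L, Serves C₀ σ L ∧ cost L = n}.Nonempty := ⟨_, _, hser σ, rfl⟩
  obtain ⟨L, hL, hc⟩ := Nat.sInf_mem hne
  have h1 := (key σ).2 C₀ C₀ L hL
  have h2 : ham C₀ C₀ = 0 := by simp [ham]
  rw [h2, hc] at h1
  have h3 : cost (schedule (fun q r => (F (q.foldl (fun S r => (F S r).1) (S0 k P)) r).2) [] σ)
      ≤ 2 * k * OPT C₀ σ + (Phi (S0 k P) C₀ + k) := by
    unfold OPT
    simp only [List.foldl_nil] at h1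
    omega
  exact_mod_cast h3

end Pool.Agent.P.MP_dee2e2_lc
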