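import Pool.Agent.P.MP_dee2e2_lc.Ghost

namespace Pool.Agent.P.MP_dee2e2_lc
open Finset
open scoped Classical

variable {k : ℕ} {P : Type}

lemma erase_facts (D : Finset (Fin k)) (t : Fin k) :
    (t ∈ D ∧ (D \ D.erase t).card = 1 ∧ (D.erase t).card + 1 = D.card) ∨
    (t ∉ D ∧ (D.erase t).card = D.card) := by
  by_cases h : t ∈ D
  · left
    refine ⟨h, ?_, card_erase_add_one h⟩
    have := card_sdiff_add_card_eq_card (erase_subset t D)
    have := card_erase_add_one h
    omega
  · right; exact ⟨h, by rw [erase_eq_of_notMem h]⟩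

section L
variable {S : St k P} {p : P} {t : Fin k}

lemma opL_c_ne {a : Fin k} (h : a ≠ t) : (opL S p t).c a = S.c a := by
  simp [opL, Function.update_of_ne h]

lemma opL_c_self : (opL S p t).c t = some p := by simp [opL]

lemma opL_R (r : Fin k) : (opL S p t).R r = delcov S t r := rfl

lemma opL_hR (r : Fin k) : (opL S p t).R r = S.R r ∨ (opL S p t).R r = none ∨
    (opL S p t).R r = some p := by
  rcases delcov_or S t r with h | h
  · left; exact h
  · right; left; exact h

lemma opL_hc (r : Fin k) : (opL S p t).c r = some p ∨ (opL S p t).c r = none ∨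
    ∃ r', (opL S p t).c r = S.c r' := by
  by_cases h : r = t
  · subst h; left; exact opL_c_self
  · right; right; exact ⟨r, opL_c_ne h⟩

lemma opL_norec (hrec : ∀ s, S.R s ≠ some p) (r : Fin k) : (opL S p t).R r ≠ some p := by
  rcases delcov_or S t r with h | h
  · rw [opL_R, h]; exact hrec r
  · rw [opL_R, h]; simp

lemma opL_pin {a : Fin k} (h : a ≠ t) (hp : pin (opL S p t) a) : pin S a := by
  obtain ⟨h1, h2⟩ := hp
  rw [opL_c_ne h] at h1 h2
  rcases delcov_or S t a with h' | h'
  · exact ⟨h1.trans h', h2⟩
  · exact absurd (h1.trans h') h2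

lemma opL_wt {a : Fin k} (h : a ≠ t) : wt (opL S p t) a ≤ wt S a := by
  by_cases hp : pin (opL S p t) a
  · rw [wt_pin hp, wt_pin (opL_pin h hp)]
  · rw [wt_npin hp]; exact one_le_wt S a

lemma opL_npin (hrec : ∀ s, S.R s ≠ some p) : ¬ pin (opL S p t) t := by
  rintro ⟨h1, -⟩
  exact opL_norec hrec t (h1.symm.trans opL_c_self)

lemma inv_opL (hI : Inv S) (habs : ∀ s, S.c s ≠ some p) (hrec : ∀ s, S.R s ≠ some p) :
    Inv (opL S p t) := by
  refine ⟨?_, ?_, ?_⟩
  · intro a b hab
    simp only [opL] at hab
    by_cases ha : a = t <;> by_cases hb : b = t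
    · rw [ha, hb]
    · subst ha
      rw [Function.update_self, Function.update_of_ne hb] at hab
      exact absurd (S.lt_new b) (by omega)
    · subst hb
      rw [Function.update_self, Function.update_of_ne ha] at hab
      exact absurd (S.lt_new a) (by omega)
    · rw [Function.update_of_ne ha, Function.update_of_ne hb] at hab
      exact hI.inj hab
  · intro s hs hR r hr
    by_cases hst : s = t
    · subst hst
      rw [opL_c_self, opL_c_ne hr]
      exact ⟨habs r, opL_norec hrec r⟩
    · rw [opL_c_ne hst] at hs hR ⊢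
      have hR0 : S.R s ≠ S.c s := by
        intro h
        exact hR ((delcov_pin S t ⟨h.symm, hs⟩).trans h)
      obtain ⟨g1, g2⟩ := hI.uniq s hs hR0 r hr
      constructor
      · by_cases hrt : r = t
        · subst hrt; rw [opL_c_self]; exact (habs s).symm
        · rw [opL_c_ne hrt]; exact g1
      · rcases delcov_or S t r with h | h
        · rw [opL_R, h]; exact g2
        · rw [opL_R, h]; exact hs.symm
  · intro r r' h1 h2 h3 h4
    have e1 : (opL S p t).R r = S.R r := by
      rcases delcov_or S t r with h | h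
      · exact h
      · exact absurd h h1
    have e2 : (opL S p t).R r' = S.R r' := by
      rcases delcov_or S t r' with h | h
      · exact h
      · exact absurd (h2.symm.trans h) h1
    have key : ∀ a, a ≠ t → (opL S p t).R a = S.R a → S.R a ≠ none → S.R a = S.R t →
        S.c a ≠ S.R a → False := by
      intro a hat ea hn hRt hca
      by_cases hpt : S.c t = S.R t
      · have : delcov S t a = none := by
          unfold delcov
          rw [if_pos ⟨hat, hRt.trans hpt.symm, by rw [hpt, ← hRt]; exact hca⟩]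
        exact hn (ea.symm.trans this)
      · exact hat (hI.cov a t hn hRt.symm hca (hRt ▸ hpt))
    rw [e1] at h1 h2 h3 h4
    rw [e2] at h2
    by_cases hr : r = t <;> by_cases hr' : r' = t
    · rw [hr, hr']
    · subst hr
      rw [opL_c_ne hr'] at h4
      exact (key r' hr' e2 (h2 ▸ h1) h2 (h2 ▸ h4)).elim
    · subst hr'
      rw [opL_c_ne hr] at h3
      exact (key r hr e1 h1 h2.symm h3).elim
    · rw [opL_c_ne hr] at h3
      rw [opL_c_ne hr'] at h4
      exact hI.cov r r' h1 h2 h3 h4

variable {Y Y' : Cache k P} {H E : Finset (Fin k)} {B : Finset (Option P)}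

lemma L_sum (habs : ∀ s, S.c s ≠ some p) (hrec : ∀ s, S.R s ≠ some p)
    (hold : ∀ s, s ≠ t → S.τ t < S.τ s) (G : GStep S Y Y' p H E B) (hp : ∃ j, Y' j = some p) :
    Ssum (dead (opL S p t) Y') (opL S p t).τ (wt (opL S p t)) +
      2 * (dead S Y \ (dead S Y).erase t).card + wt S t * ((dead S Y).erase t).card ≤
    Ssum (dead S Y) S.τ (wt S) + Ssum (E.erase t) (opL S p t).τ (wt (opL S p t)) := by
  refine Ssum_refresh S.τ (wt S) (wt (opL S p t)) t S.new S.lt_new (fun a h => opL_wt h)
    _ _ _ _ (erase_subset _ _) (notMem_erase _ _) ?_ _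
    (Or.inr ⟨rfl, fun d hd => hold d (ne_of_mem_erase hd)⟩)
  intro a ha
  rw [mem_dead] at ha
  have hat : a ≠ t := by
    rintro rfl
    refine ha (Or.inr ⟨?_, ?_⟩)
    · rw [opL_c_self]
      exact ⟨by simp, hp, fun j _ => opL_norec hrec j⟩
    · intro r _
      rw [opL_c_self]; exact opL_norec hrec r
  by_cases hE : a ∈ E
  · exact mem_union_right _ (mem_erase.mpr ⟨hat, hE⟩)
  · refine mem_union_left _ (mem_erase.mpr ⟨hat, mem_dead.mpr fun h => ha ?_⟩)
    exact alive_pres G opL_hR hE (opL_c_ne hat) (fun h => delcov_pin S t h)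
      (fun _ => habs a) h

lemma L_u (G : GStep S Y Y' p H E B) (Del : Finset (Fin k))
    (hD : ∀ a, a ∉ Del → Fx S Y a → delcov S t a = S.R a) :
    (uset (opL S p t) Y').card ≤ (uset S Y).card + Del.card + H.card := by
  have := ucard (S := S) (S' := opL S p t) (Y := Y) (Y' := Y') (Del ∪ H) ∅ (by
    intro a ha hF
    rw [mem_union, not_or] at ha
    refine ⟨?_, ?_⟩
    · rw [opL_R, hD a ha.1 hF, G.hH a ha.2 hF]; exact hF.1
    · rw [opL_R, hD a ha.1 hF]; exact hF.2) (by simp)
  have h2 := card_union_le Del H
  simp only [card_empty] at this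
  omega

lemma L_join (hI : Inv S) (habs : ∀ s, S.c s ≠ some p) (hal : alive S Y t) (hnp : ¬ pin S t)
    (hy : ∃ r, Y' r = S.c t) : S.c t ∈ zset (opL S p t) Y' := by
  rcases hal with h | ⟨h1, h2⟩
  · exact absurd h.1 hnp
  have hRt : S.R t ≠ S.c t := fun h => hnp ⟨h.symm, h1.1⟩
  refine mem_zset.mpr ⟨hy, h1.1, fun s => ?_, fun s => ?_⟩
  · rcases delcov_or S t s with h | h
    · rw [opL_R, h]
      by_cases hs : s = t
      · rw [hs]; exact hRt
      · exact h2 s hs
    · rw [opL_R, h]; exact h1.1.symm
  · by_cases hs : s = t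
    · rw [hs, opL_c_self]; exact (habs t).symm
    · rw [opL_c_ne hs]; exact sole_unique hI h2 h1.1 hs

lemma del_pin (hI : Inv S) {r : Fin k} (h1 : r ≠ t) (h2 : S.R r = S.c t) (h4 : Fx S Y r) :
    pin S t := by
  have hn : S.c t ≠ none := h2 ▸ h4.2
  by_contra hp
  exact (hI.uniq t hn (fun h => hp ⟨h.symm, hn⟩) r h1).2 h2

theorem L_static (hI : Inv S) (habs : ∀ s, S.c s ≠ some p) (hrec : ∀ s, S.R s ≠ some p)
    (hold : ∀ s, s ≠ t → S.τ t < S.τ s) (hp : ∃ j, Y j = some p) :
    Phi (opL S p t) Y + (zset S Y).card + 1 ≤ Phi S Y + (zset (opL S p t) Y).card := by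
  have G := gstep_static S Y p
  have h1 := L_sum habs hrec hold G hp
  obtain ⟨Del, hD, hD'⟩ := del_cases hI Y t
  have h2 := L_u (t := t) G Del hD
  have h3 := zcard G (opL_hR (t := t)) opL_hc t
  have h4 : kap (opL S p t) Y = 0 := kap_zero_of_npin Y (opL_npin hrec)
  obtain ⟨j, hj⟩ := hp
  have hmj : (∀ s, S.c s ≠ Y j) ∨ (Fx S Y j ∧ S.c j ≠ S.R j) := Or.inl (hj ▸ habs)
  have h5 := one_le_dead hI Y j hmj
  have h6 : (if some p ∈ zset S Y then 1 else 0) ≤ 1 := by split_ifs <;> omega
  simp only [erase_empty, Ssum_empty, card_empty] at h1 h2 h3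
  unfold Phi
  have hw1 := one_le_wt S t
  rcases hD' with rfl | ⟨r, rfl, g1, g2, g3, g4⟩
  · simp only [card_empty] at h2
    rcases erase_facts (dead S Y) t with ⟨-, e1, e2⟩ | ⟨e0, e2⟩
    · omega
    · by_cases hpt : pin S t
      · rw [wt_pin hpt] at h1; omega
      · rw [wt_npin hpt] at h1
        have hal : alive S Y t := by simpa [mem_dead] using e0
        have hy : ∃ r, Y r = S.c t := by
          rcases hal with h | h
          · exact absurd h.1 hpt
          · exact h.1.2.1
        rw [if_pos (L_join hI habs hal hpt hy)] at h3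
        omega
  · simp only [card_singleton] at h2
    have hjr : j ≠ r := by
      rintro rfl
      exact hrec j (g4.1.symm.trans hj)
    have h7 := two_le_dead hI Y j r hjr hmj (Or.inr ⟨g4, g2 ▸ g3⟩)
    rw [wt_pin (del_pin hI g1 g2 g4)] at h1
    rcases erase_facts (dead S Y) t with ⟨-, e1, e2⟩ | ⟨e0, e2⟩ <;> omega

theorem L_move (hI : Inv S) (habs : ∀ s, S.c s ≠ some p) (hrec : ∀ s, S.R s ≠ some p)
    (hold : ∀ s, s ≠ t → S.τ t < S.τ s) (hp : ∀ a, Y a ≠ some p) (j : Fin k) :
    Phi (opL S p t) (Function.update Y j (some p)) + (zset S Y).card + 1 ≤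
      Phi S Y + (zset (opL S p t) (Function.update Y j (some p))).card + 2 * k := by
  have hp' : ∃ a, Function.update Y j (some p) a = some p := ⟨j, by simp⟩
  have hk : 1 ≤ k := j.pos
  obtain ⟨Del, hD, hD'⟩ := del_cases hI Y t
  have h4 : kap (opL S p t) (Function.update Y j (some p)) = 0 :=
    kap_zero_of_npin _ (opL_npin hrec)
  have hpz : some p ∉ zset S Y := fun h => by
    obtain ⟨a, ha⟩ := (mem_zset.mp h).1
    exact hp a ha
  have hw1 := one_le_wt S t
  have hkill : ∀ e, e ≠ t → ∀ b, (b = 0 ∨ (b = 1 ∧ ∃ a, a ≠ t ∧ a ≠ e ∧ ¬ pin S a)) →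
      cr (opL S p t).τ (wt (opL S p t)) e + 2 + b ≤ 2 * k := by
    intro e he b hb
    refine cr_kill S.τ _ t S.new S.lt_new (wt_le _) e he b ?_
    rcases hb with hb | ⟨hb, a, g1, g2, g3⟩
    · exact Or.inl hb
    · exact Or.inr ⟨hb, a, g1, g2, (opL_wt g1).trans (wt_npin g3).le⟩
  -- the deletion is paid by the dead cells
  have hdel : 2 * Del.card ≤ 2 * (dead S Y \ (dead S Y).erase t).card +
      wt S t * ((dead S Y).erase t).card := by
    rcases hD' with rfl | ⟨r, rfl, g1, g2, g3, g4⟩
    · simp
    · have h7 := one_le_dead hI Y r (Or.inr ⟨g4, g2 ▸ g3⟩)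
      rw [wt_pin (del_pin hI g1 g2 g4), card_singleton]
      rcases erase_facts (dead S Y) t with ⟨-, e1, e2⟩ | ⟨e0, e2⟩ <;> omega
  unfold Phi
  rcases gstep_move hI Y j p with ⟨hF, G⟩ | ⟨hF, e, he1, he2, he3, G⟩ | ⟨hF, G⟩
  · have h1 := L_sum habs hrec hold G hp'
    have h2 := L_u (t := t) G Del hD
    have h3 := zcard G (opL_hR (t := t)) opL_hc t
    rw [if_neg hpz] at h3
    simp only [card_empty, card_singleton] at h2 h3
    -- general spare unit
    have hspare : (∃ a, a ≠ t ∧ ¬ pin S a) ∨
        2 * Del.card + 1 ≤ 2 * (dead S Y \ (dead S Y).erase t).card +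
          wt S t * ((dead S Y).erase t).card + kap S Y +
          (if S.c t ∈ zset (opL S p t) (Function.update Y j (some p)) then 1 else 0) := by
      rcases hD' with rfl | ⟨r, rfl, g1, g2, g3, g4⟩
      · by_cases hex : ∃ a, a ≠ t ∧ ¬ pin S a
        · exact Or.inl hex
        right
        simp only [card_empty]
        rcases erase_facts (dead S Y) t with ⟨-, e1, e2⟩ | ⟨e0, e2⟩
        · omega
        · rcases Nat.eq_zero_or_pos (dead S Y).card with hz | hz
          · have hall : ∀ s, alive S Y s := by
              intro s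
              by_contra hs
              have := card_pos.mpr ⟨s, mem_dead.mpr hs⟩
              omega
            by_cases hpt : pin S t
            · have : kap S Y = 1 := by
                unfold kap
                rw [if_pos]
                intro s
                refine ⟨?_, hall s⟩
                by_contra hs
                by_cases hst : s = t
                · exact hs (hst ▸ hpt)
                · exact hex ⟨s, hst, hs⟩
              omega
            · have hy : ∃ r, Function.update Y j (some p) r = S.c t := by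
                rcases hall t with h | h
                · exact absurd h.1 hpt
                · refine upd_keep Y j p _ h.1.2.1 fun hh => ?_
                  exact h.1.2.2 j hh.symm (hF.1.symm.trans hh.symm)
              rw [if_pos (L_join hI habs (hall t) hpt hy)]
              omega
          · have : 1 ≤ wt S t * ((dead S Y).erase t).card :=
              Nat.one_le_iff_ne_zero.mpr (Nat.mul_ne_zero (by omega) (by omega))
            omega
      · exact Or.inl ⟨r, g1, fun h => g3 (h.1.trans g2)⟩
    by_cases hj : pin S j ∧ j ≠ t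
    · have hE : (if pin S j then ({j} : Finset (Fin k)) else ∅).erase t = {j} := by
        rw [if_pos hj.1]; exact erase_eq_of_notMem (by simpa using hj.2.symm)
      rw [hE, Ssum_single] at h1
      rcases hspare with ⟨a, g1, g2⟩ | hs
      · have := hkill j hj.2 1 (Or.inr ⟨rfl, a, g1, fun h => g2 (h ▸ hj.1), g2⟩)
        omega
      · have := hkill j hj.2 0 (Or.inl rfl)
        omega
    · have hE : (if pin S j then ({j} : Finset (Fin k)) else ∅).erase t = ∅ := by
        split_ifs with h
        · have : j = t := by by_contra h'; exact hj ⟨h, h'⟩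
          simp [this]
        · simp
      rw [hE, Ssum_empty] at h1
      rcases hspare with ⟨a, g1, g2⟩ | hs
      · have : 2 ≤ k := by
          have h8 : ({a, t} : Finset (Fin k)).card ≤ k := by
            simpa using card_le_univ ({a, t} : Finset (Fin k))
          rwa [card_pair g1] at h8
        omega
      · omega
  · have h1 := L_sum habs hrec hold G hp'
    have h2 := L_u (t := t) G Del hD
    have h3 := zcard G (opL_hR (t := t)) opL_hc t
    rw [if_neg hpz] at h3
    simp only [card_empty] at h2 h3
    by_cases het : e = t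
    · rw [het, erase_singleton, Ssum_empty] at h1
      omega
    · rw [erase_eq_of_notMem (s := {e}) (by simpa using Ne.symm het), Ssum_single] at h1
      have := hkill e het 0 (Or.inl rfl)
      omega
  · have h1 := L_sum habs hrec hold G hp'
    have h2 := L_u (t := t) G Del hD
    have h3 := zcard G (opL_hR (t := t)) opL_hc t
    rw [if_neg hpz] at h3
    simp only [card_empty, card_singleton, erase_empty, Ssum_empty] at h1 h2 h3
    omega

end L

end Pool.Agent.P.MP_dee2e2_lc
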