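import Pool.Agent.P.MP_dee2e2_lc.OpL

namespace Pool.Agent.P.MP_dee2e2_lc
open Finset
open scoped Classical

variable {k : ℕ} {P : Type}

lemma two_le_of_ne {a b : Fin k} (h : a ≠ b) : 2 ≤ k := by
  have h8 : ({a, b} : Finset (Fin k)).card ≤ k := by
    simpa using card_le_univ ({a, b} : Finset (Fin k))
  rwa [card_pair h] at h8

lemma upd_inj (S : St k P) (hinj : Function.Injective S.τ) (t : Fin k) :
    Function.Injective (Function.update S.τ t S.new) := by
  intro a b hab
  by_cases ha : a = t <;> by_cases hb : b = t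
  · rw [ha, hb]
  · subst ha
    rw [Function.update_self, Function.update_of_ne hb] at hab
    exact absurd (S.lt_new b) (by omega)
  · subst hb
    rw [Function.update_self, Function.update_of_ne ha] at hab
    exact absurd (S.lt_new a) (by omega)
  · rw [Function.update_of_ne ha, Function.update_of_ne hb] at hab
    exact hinj hab

section O
variable {S : St k P} {p : P} {t : Fin k}

lemma opO_c_ne {a : Fin k} (h : a ≠ t) : (opO S p t).c a = S.c a := by
  simp [opO, Function.update_of_ne h]

lemma opO_c_self : (opO S p t).c t = some p := by simp [opO]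

lemma opO_R_ne {a : Fin k} (h : a ≠ t) : (opO S p t).R a = S.R a := by
  simp [opO, Function.update_of_ne h]

lemma opO_R_self : (opO S p t).R t = some p := by simp [opO]

lemma opO_hR (r : Fin k) : (opO S p t).R r = S.R r ∨ (opO S p t).R r = none ∨
    (opO S p t).R r = some p := by
  by_cases h : r = t
  · subst h; right; right; exact opO_R_self
  · left; exact opO_R_ne h

lemma opO_hc (r : Fin k) : (opO S p t).c r = some p ∨ (opO S p t).c r = none ∨
    ∃ r', (opO S p t).c r = S.c r' := by
  by_cases h : r = t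
  · subst h; left; exact opO_c_self
  · right; right; exact ⟨r, opO_c_ne h⟩

lemma opO_wt {a : Fin k} (h : a ≠ t) : wt (opO S p t) a ≤ wt S a := by
  unfold wt pin
  rw [opO_c_ne h, opO_R_ne h]

lemma opO_pin : pin (opO S p t) t := by
  refine ⟨by rw [opO_c_self, opO_R_self], by rw [opO_c_self]; simp⟩

lemma inv_opO (hI : Inv S) (hns : ∀ s, s ≠ t → sole S s → S.c s ≠ some p) :
    Inv (opO S p t) := by
  refine ⟨upd_inj S hI.inj t, ?_, ?_⟩
  · intro s hs hR r hr
    have hst : s ≠ t := by
      rintro rfl
      exact hR opO_pin.1.symm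
    rw [opO_c_ne hst] at hs hR ⊢
    rw [opO_R_ne hst] at hR
    have hp : S.c s ≠ some p := hns s hst (fun r hr => (hI.uniq s hs hR r hr).2)
    by_cases hrt : r = t
    · subst hrt
      rw [opO_c_self, opO_R_self]
      exact ⟨hp.symm, hp.symm⟩
    · rw [opO_c_ne hrt, opO_R_ne hrt]
      exact hI.uniq s hs hR r hr
  · intro r r' h1 h2 h3 h4
    have hr : r ≠ t := by
      rintro rfl
      exact h3 opO_pin.1
    have hr' : r' ≠ t := by
      rintro rfl
      exact h4 (opO_pin.1.trans h2)
    rw [opO_R_ne hr] at h1 h2 h3 h4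
    rw [opO_R_ne hr'] at h2
    rw [opO_c_ne hr] at h3
    rw [opO_c_ne hr'] at h4
    exact hI.cov r r' h1 h2 h3 h4

variable {Y Y' : Cache k P} {H E : Finset (Fin k)} {B : Finset (Option P)}

lemma O_sum (hns : ∀ s, s ≠ t → sole S s → S.c s ≠ some p) (G : GStep S Y Y' p H E B)
    (hal : alive (opO S p t) Y' t) :
    Ssum (dead (opO S p t) Y') (opO S p t).τ (wt (opO S p t)) +
      2 * (dead S Y \ (dead S Y).erase t).card ≤
    Ssum (dead S Y) S.τ (wt S) + Ssum (E.erase t) (opO S p t).τ (wt (opO S p t)) := by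
  have := Ssum_refresh S.τ (wt S) (wt (opO S p t)) t S.new S.lt_new (fun a h => opO_wt h)
    (dead S Y) (dead (opO S p t) Y') ((dead S Y).erase t) (E.erase t) (erase_subset _ _)
    (notMem_erase _ _) ?_ 0 (Or.inl rfl)
  · simpa [opO] using this
  intro a ha
  rw [mem_dead] at ha
  have hat : a ≠ t := by
    rintro rfl
    exact ha hal
  by_cases hE : a ∈ E
  · exact mem_union_right _ (mem_erase.mpr ⟨hat, hE⟩)
  · refine mem_union_left _ (mem_erase.mpr ⟨hat, mem_dead.mpr fun h => ha ?_⟩)
    exact alive_pres G opO_hR hE (opO_c_ne hat) (fun _ => opO_R_ne hat) (hns a hat) h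

lemma O_kill (e : Fin k) (he : e ≠ t) :
    cr (opO S p t).τ (wt (opO S p t)) e + 2 ≤ 2 * k := by
  have := cr_kill S.τ (wt (opO S p t)) t S.new S.lt_new (wt_le _) e he 0 (Or.inl rfl)
  simpa [opO] using this

lemma O_alive_spec (h : Y' t = some p) : alive (opO S p t) Y' t :=
  Or.inl ⟨opO_pin, by rw [opO_c_self, h]⟩

lemma O_alive_gen (hI : Inv S) (habs : ∀ s, S.c s ≠ some p) (hR : S.R t = some p)
    (hp : ∃ j, Y' j = some p) : alive (opO S p t) Y' t := by
  by_cases h : Y' t = some p
  · exact O_alive_spec h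
  have hs : ∀ r, r ≠ t → (opO S p t).R r ≠ some p := by
    intro r hr hh
    rw [opO_R_ne hr] at hh
    exact hr (hI.cov t r (by rw [hR]; simp) (hh.trans hR.symm) (hR ▸ habs t) (hR ▸ habs r)).symm
  refine Or.inr ⟨?_, ?_⟩
  · rw [opO_c_self]
    refine ⟨by simp, hp, fun j hj => hs j ?_⟩
    rintro rfl; exact h hj
  · intro r hr
    rw [opO_c_self]; exact hs r hr

lemma O_Fx_ne (G : GStep S Y Y' p H E B) {a : Fin k} (hat : a ≠ t) (ha : a ∉ H)
    (hF : Fx S Y a) : Fx (opO S p t) Y' a := by
  refine ⟨?_, ?_⟩
  · rw [opO_R_ne hat, G.hH a ha hF]; exact hF.1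
  · rw [opO_R_ne hat]; exact hF.2

lemma O_Fx_self (h : Y' t = some p) : Fx (opO S p t) Y' t :=
  ⟨by rw [opO_R_self, h], by rw [opO_R_self]; simp⟩

lemma O_tail (hI : Inv S) (hct : S.c t ≠ some p)
    (hns : ∀ s, s ≠ t → sole S s → S.c s ≠ some p) (G : GStep S Y Y' p H E B) (htE : t ∉ E)
    (hnf : ¬ (pin S t ∧ Y t = S.c t)) :
    kap (opO S p t) Y' + 1 ≤ 2 * (dead S Y \ (dead S Y).erase t).card +
      (if S.c t ∈ zset (opO S p t) Y' then 1 else 0) := by
  rcases erase_facts (dead S Y) t with ⟨-, e1, -⟩ | ⟨e0, -⟩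
  · have := kap_le (opO S p t) Y'
    omega
  · have hal : alive S Y t := by simpa [mem_dead] using e0
    rcases hal with h | ⟨h1, h2⟩
    · exact absurd h hnf
    obtain ⟨r, hr⟩ := G.hE2 t htE h1 h2
    have hc : ∀ s, (opO S p t).c s ≠ S.c t := by
      intro s
      by_cases hs : s = t
      · rw [hs, opO_c_self]; exact hct.symm
      · rw [opO_c_ne hs]; exact sole_unique hI h2 h1.1 hs
    have hz : S.c t ∈ zset (opO S p t) Y' := by
      refine mem_zset.mpr ⟨⟨r, hr⟩, h1.1, fun s => ?_, hc⟩
      by_cases hs : s = t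
      · rw [hs, opO_R_self]; exact hct.symm
      · rw [opO_R_ne hs]; exact h2 s hs
    rw [if_pos hz, kap_zero_of_dead (one_le_dead (inv_opO hI hns) Y' r (Or.inl (hr ▸ hc)))]
    omega

theorem O_static_gen (hI : Inv S) (habs : ∀ s, S.c s ≠ some p) (hR : S.R t = some p)
    (hp : ∃ j, Y j = some p) :
    Phi (opO S p t) Y + (zset S Y).card + 1 ≤ Phi S Y + (zset (opO S p t) Y).card := by
  have G := gstep_static S Y p
  have hns : ∀ s, s ≠ t → sole S s → S.c s ≠ some p := fun s _ _ => habs s
  have h1 := O_sum hns G (O_alive_gen hI habs hR hp)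
  have h2 := ucard (S := S) (S' := opO S p t) (Y := Y) (Y' := Y) ∅ ∅ (by
    intro a _ hF
    by_cases hat : a = t
    · subst hat; exact O_Fx_self (hF.1.trans hR)
    · exact O_Fx_ne G hat (by simp) hF) (by simp)
  have h3 := zcard G (opO_hR (t := t)) opO_hc t
  rw [if_neg (show some p ∉ zset S Y from fun h => (mem_zset.mp h).2.2.1 t hR)] at h3
  have h4 := O_tail hI (habs t) hns G (by simp) (fun h => habs t (h.1.1.trans hR))
  simp only [erase_empty, Ssum_empty, card_empty] at h1 h2 h3
  unfold Phi
  omega

theorem O_static_spec (hI : Inv S) (hct : S.c t ≠ some p)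
    (hns : ∀ s, s ≠ t → sole S s → S.c s ≠ some p) (hp : Y t = some p) :
    Phi (opO S p t) Y + (zset S Y).card + 1 ≤ Phi S Y + (zset (opO S p t) Y).card := by
  have G := gstep_static S Y p
  have h1 := O_sum hns G (O_alive_spec hp)
  have hA : ∀ a, a ∉ (∅ : Finset (Fin k)) → Fx S Y a → Fx (opO S p t) Y a := by
    intro a _ hF
    by_cases hat : a = t
    · subst hat; exact O_Fx_self hp
    · exact O_Fx_ne G hat (by simp) hF
  have h3 := zcard G (opO_hR (t := t)) opO_hc t
  have h4 := O_tail hI hct hns G (by simp) (fun h => hct (h.2.symm.trans hp))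
  simp only [erase_empty, Ssum_empty, card_empty] at h1 h3
  unfold Phi
  by_cases hF : Fx S Y t
  · have h2 := ucard (S := S) (S' := opO S p t) (Y := Y) (Y' := Y) ∅ ∅ hA (by simp)
    rw [if_neg (show some p ∉ zset S Y from
      fun h => (mem_zset.mp h).2.2.1 t (hF.1.symm.trans hp))] at h3
    simp only [card_empty] at h2
    omega
  · have h2 := ucard (S := S) (S' := opO S p t) (Y := Y) (Y' := Y) ∅ {t} hA (by
      intro a ha
      rw [mem_singleton.mp ha]
      exact ⟨hF, O_Fx_self hp⟩)
    have h6 : (if some p ∈ zset S Y then 1 else 0) ≤ 1 := by split_ifs <;> omega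
    simp only [card_empty, card_singleton] at h2
    omega

theorem O_move_gen (hI : Inv S) (habs : ∀ s, S.c s ≠ some p) (hR : S.R t = some p)
    (hp : ∀ a, Y a ≠ some p) (j : Fin k) :
    Phi (opO S p t) (Function.update Y j (some p)) + (zset S Y).card + 1 ≤
      Phi S Y + (zset (opO S p t) (Function.update Y j (some p))).card + 2 * k := by
  have hp' : ∃ a, Function.update Y j (some p) a = some p := ⟨j, by simp⟩
  have hk : 1 ≤ k := j.pos
  have hns : ∀ s, s ≠ t → sole S s → S.c s ≠ some p := fun s _ _ => habs s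
  have hpz : some p ∉ zset S Y := fun h => (mem_zset.mp h).2.2.1 t hR
  have hal := O_alive_gen hI habs hR hp'
  have hnF : ¬ Fx S Y t := fun h => hp t (h.1.trans hR)
  have hnf : ¬ (pin S t ∧ Y t = S.c t) := fun h => habs t (h.1.1.trans hR)
  have hu : ∀ H E B, GStep S Y (Function.update Y j (some p)) p H E B →
      (uset (opO S p t) (Function.update Y j (some p))).card ≤ (uset S Y).card + H.card := by
    intro H E B G
    have := ucard (S := S) (S' := opO S p t) (Y := Y) (Y' := Function.update Y j (some p)) H ∅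
      (fun a ha hF => O_Fx_ne G (fun h => hnF (h ▸ hF)) ha hF) (by simp)
    simpa using this
  have hkap := kap_le (opO S p t) (Function.update Y j (some p))
  unfold Phi
  rcases gstep_move hI Y j p with ⟨hF, G⟩ | ⟨hF, e, he1, he2, he3, G⟩ | ⟨hF, G⟩
  · have hjt : j ≠ t := fun h => hnF (h ▸ hF)
    have h1 := O_sum hns G hal
    have h2 := hu _ _ _ G
    have h3 := zcard G (opO_hR (t := t)) opO_hc t
    rw [if_neg hpz] at h3
    have h4 := O_tail hI (habs t) hns G (by split_ifs <;> simp [hjt.symm]) hnf
    simp only [card_empty, card_singleton] at h2 h3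
    by_cases hj : pin S j
    · rw [if_pos hj, erase_eq_of_notMem (s := {j}) (by simpa using hjt.symm), Ssum_single] at h1
      have := O_kill (S := S) (p := p) j hjt
      omega
    · rw [if_neg hj, erase_empty, Ssum_empty] at h1
      omega
  · have h1 := O_sum hns G hal
    have h2 := hu _ _ _ G
    have h3 := zcard G (opO_hR (t := t)) opO_hc t
    rw [if_neg hpz] at h3
    simp only [card_empty] at h2 h3
    by_cases het : e = t
    · rw [het, erase_singleton, Ssum_empty] at h1
      omega
    · rw [erase_eq_of_notMem (s := {e}) (by simpa using Ne.symm het), Ssum_single] at h1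
      have := O_kill (S := S) (p := p) e het
      omega
  · have h1 := O_sum hns G hal
    have h2 := hu _ _ _ G
    have h3 := zcard G (opO_hR (t := t)) opO_hc t
    rw [if_neg hpz] at h3
    have h4 := O_tail hI (habs t) hns G (by simp) hnf
    simp only [card_empty, card_singleton, erase_empty, Ssum_empty] at h1 h2 h3
    omega

theorem O_move_spec (hI : Inv S)
    (hns : ∀ s, s ≠ t → sole S s → S.c s ≠ some p) (hp : Y t ≠ some p) :
    Phi (opO S p t) (Function.update Y t (some p)) + (zset S Y).card + 1 ≤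
      Phi S Y + (zset (opO S p t) (Function.update Y t (some p))).card + 2 * k := by
  have hp' : Function.update Y t (some p) t = some p := by simp
  have hk : 1 ≤ k := t.pos
  have hal : alive (opO S p t) (Function.update Y t (some p)) t := O_alive_spec hp'
  have hA : ∀ a, a ∉ (∅ : Finset (Fin k)) → Fx S Y a →
      Fx (opO S p t) (Function.update Y t (some p)) a := by
    intro a _ hF
    by_cases hat : a = t
    · subst hat; exact O_Fx_self hp'
    · refine ⟨?_, ?_⟩
      · rw [opO_R_ne hat, Function.update_of_ne hat]; exact hF.1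
      · rw [opO_R_ne hat]; exact hF.2
  have hu0 := ucard (S := S) (S' := opO S p t) (Y := Y) (Y' := Function.update Y t (some p))
    ∅ ∅ hA (by simp)
  have hu1 : ¬ Fx S Y t → (uset (opO S p t) (Function.update Y t (some p))).card + 1 ≤
      (uset S Y).card := by
    intro hF
    have := ucard (S := S) (S' := opO S p t) (Y := Y) (Y' := Function.update Y t (some p))
      ∅ {t} hA (by
        intro a ha
        rw [mem_singleton.mp ha]
        exact ⟨hF, O_Fx_self hp'⟩)
    simpa using this
  have hkap := kap_le (opO S p t) (Function.update Y t (some p))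
  have h6 : (if some p ∈ zset S Y then 1 else 0) ≤ 1 := by split_ifs <;> omega
  simp only [card_empty] at hu0
  unfold Phi
  rcases gstep_move hI Y t p with ⟨hF, G⟩ | ⟨hF, e, he1, he2, he3, G⟩ | ⟨hF, G⟩
  · have h1 := O_sum hns G hal
    have h3 := zcard G (opO_hR (t := t)) opO_hc t
    have hE : (if pin S t then ({t} : Finset (Fin k)) else ∅).erase t = ∅ := by
      split_ifs <;> simp
    rw [hE, Ssum_empty] at h1
    simp only [card_empty] at h3
    by_cases hz : some p ∈ zset S Y
    · obtain ⟨a, ha⟩ := (mem_zset.mp hz).1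
      have := two_le_of_ne (a := a) (b := t) (by rintro rfl; exact hp ha)
      omega
    · rw [if_neg hz] at h3
      omega
  · have h1 := O_sum hns G hal
    have h2 := hu1 hF
    have h3 := zcard G (opO_hR (t := t)) opO_hc t
    simp only [card_empty] at h3
    by_cases het : e = t
    · rw [het, erase_singleton, Ssum_empty] at h1
      omega
    · rw [erase_eq_of_notMem (s := {e}) (by simpa using Ne.symm het), Ssum_single] at h1
      have := O_kill (S := S) (p := p) e het
      omega
  · have h1 := O_sum hns G hal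
    have h2 := hu1 hF
    have h3 := zcard G (opO_hR (t := t)) opO_hc t
    simp only [card_singleton, erase_empty, Ssum_empty] at h1 h3
    omega

end O

end Pool.Agent.P.MP_dee2e2_lc
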