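import Pool.Agent.P.MP_dee2e2_lc.OpO

namespace Pool.Agent.P.MP_dee2e2_lc
open Finset
open scoped Classical

variable {k : ℕ} {P : Type}

section W
variable {S : St k P} {p : P} {t s : Fin k}

lemma opW_c_t : (opW S p t s).c t = some p := by simp [opW]

lemma opW_c_s (h : s ≠ t) : (opW S p t s).c s = wc S t := by
  simp [opW, Function.update_of_ne h]

lemma opW_c_ne {a : Fin k} (h1 : a ≠ s) (h2 : a ≠ t) : (opW S p t s).c a = S.c a := by
  simp [opW, Function.update_of_ne h1, Function.update_of_ne h2]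

lemma opW_R_t : (opW S p t s).R t = some p := by simp [opW]

lemma opW_R_ne {a : Fin k} (h : a ≠ t) : (opW S p t s).R a = wR S t a := by
  simp [opW, Function.update_of_ne h]

lemma wR_or (S : St k P) (t a : Fin k) : wR S t a = S.R a ∨ wR S t a = none := by
  unfold wR; split_ifs
  · left; rfl
  · exact delcov_or S t a

lemma wR_pin (S : St k P) (t : Fin k) {a : Fin k} (h : pin S a) : wR S t a = S.R a := by
  unfold wR; split_ifs
  · rfl
  · exact delcov_pin S t h

lemma wc_or (S : St k P) (t : Fin k) :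
    (wc S t = none ∧ wR S t = S.R ∧ ∃ r, r ≠ t ∧ S.c r = S.c t) ∨
    (wc S t = S.c t ∧ wR S t = delcov S t ∧ ∀ r, r ≠ t → S.c r ≠ S.c t) := by
  unfold wc wR
  by_cases h : ∃ r, r ≠ t ∧ S.c r = S.c t
  · left; rw [if_pos h, if_pos h]; exact ⟨rfl, rfl, h⟩
  · right; rw [if_neg h, if_neg h]
    exact ⟨rfl, rfl, fun r hr hc => h ⟨r, hr, hc⟩⟩

lemma opW_hR (r : Fin k) : (opW S p t s).R r = S.R r ∨ (opW S p t s).R r = none ∨
    (opW S p t s).R r = some p := by
  by_cases h : r = t
  · subst h; right; right; exact opW_R_t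
  · rw [opW_R_ne h]
    rcases wR_or S t r with h' | h'
    · left; exact h'
    · right; left; exact h'

lemma opW_hc (r : Fin k) : (opW S p t s).c r = some p ∨ (opW S p t s).c r = none ∨
    ∃ r', (opW S p t s).c r = S.c r' := by
  by_cases h : r = t
  · subst h; left; exact opW_c_t
  · by_cases h' : r = s
    · subst h'
      rw [opW_c_s h]
      rcases wc_or S t with ⟨g, -, -⟩ | ⟨g, -, -⟩
      · right; left; exact g
      · right; right; exact ⟨t, g⟩
    · right; right; exact ⟨r, opW_c_ne h' h⟩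

lemma opW_pin_t : pin (opW S p t s) t :=
  ⟨by rw [opW_c_t, opW_R_t], by rw [opW_c_t]; simp⟩

/-- in the second case no record of the moved page survives -/
lemma opW_norec (hct : S.c t ≠ some p) (hn : S.c t ≠ none) (hR : wR S t = delcov S t)
    (hu : ∀ r, r ≠ t → S.c r ≠ S.c t) (a : Fin k) : (opW S p t s).R a ≠ S.c t := by
  by_cases h : a = t
  · rw [h, opW_R_t]; exact hct.symm
  · rw [opW_R_ne h, hR]
    unfold delcov
    split_ifs with g
    · exact hn.symm
    · intro g'; exact g ⟨h, g', hu a h⟩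

lemma opW_npin_s (hst : s ≠ t) (hct : S.c t ≠ some p) : ¬ pin (opW S p t s) s := by
  rintro ⟨h1, h2⟩
  rw [opW_c_s hst] at h1 h2
  rcases wc_or S t with ⟨g, -, -⟩ | ⟨g, g2, g3⟩
  · exact h2 g
  · rw [g] at h1 h2
    exact opW_norec hct h2 g2 g3 s h1.symm

lemma opW_tau (hst : s ≠ t) :
    (opW S p t s).τ ∘ (Equiv.swap s t) = Function.update S.τ s S.new := by
  funext a
  simp only [Function.comp, opW]
  by_cases h1 : a = s
  · subst h1; simp
  · by_cases h2 : a = t
    · subst h2
      rw [Equiv.swap_apply_right, Function.update_of_ne hst, Function.update_self,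
        Function.update_of_ne h1]
    · rw [Equiv.swap_apply_of_ne_of_ne h1 h2, Function.update_of_ne h2,
        Function.update_of_ne h1, Function.update_of_ne h1]

lemma inv_opW (hI : Inv S) (hs : S.c s = some p) (hso : sole S s) (hct : S.c t ≠ some p) :
    Inv (opW S p t s) := by
  have hst : s ≠ t := by rintro rfl; exact hct hs
  refine ⟨?_, ?_, ?_⟩
  · have h := upd_inj S hI.inj s
    rw [← opW_tau (p := p) hst] at h
    exact (Function.Injective.of_comp_iff' _ (Equiv.swap s t).bijective).mp h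
  · intro a ha hR r hr
    have hat : a ≠ t := by
      rintro rfl
      exact hR opW_pin_t.1.symm
    by_cases has : a = s
    · subst has
      rw [opW_c_s hst] at ha hR ⊢
      rcases wc_or S t with ⟨g, -, -⟩ | ⟨g, g2, g3⟩
      · exact absurd g ha
      · rw [g] at ha hR ⊢
        refine ⟨?_, opW_norec hct ha g2 g3 r⟩
        by_cases hrt : r = t
        · rw [hrt, opW_c_t]; exact hct.symm
        · rw [opW_c_ne hr hrt]; exact g3 r hrt
    · rw [opW_c_ne has hat] at ha hR ⊢
      have hR0 : S.R a ≠ S.c a := by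
        intro h
        exact hR ((opW_R_ne hat).trans ((wR_pin S t ⟨h.symm, ha⟩).trans h))
      have hu := hI.uniq a ha hR0
      have hp : some p ≠ S.c a := hs ▸ (hu s (Ne.symm has)).1
      constructor
      · by_cases hrt : r = t
        · rw [hrt, opW_c_t]; exact hp
        · by_cases hrs : r = s
          · rw [hrs, opW_c_s hst]
            rcases wc_or S t with ⟨g, -, -⟩ | ⟨g, -, -⟩
            · rw [g]; exact ha.symm
            · rw [g]; exact (hu t (Ne.symm hat)).1
          · rw [opW_c_ne hrs hrt]; exact (hu r hr).1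
      · rcases opW_hR (S := S) (p := p) (t := t) (s := s) r with h | h | h
        · rw [h]; exact (hu r hr).2
        · rw [h]; exact ha.symm
        · rw [h]; exact hp
  · intro r r' h1 h2 h3 h4
    have hr : r ≠ t := by
      rintro rfl
      exact h3 opW_pin_t.1
    have hr' : r' ≠ t := by
      rintro rfl
      exact h4 (opW_pin_t.1.trans h2)
    have e1 : (opW S p t s).R r = S.R r := by
      rw [opW_R_ne hr] at h1 ⊢
      rcases wR_or S t r with h | h
      · exact h
      · exact absurd h h1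
    have e2 : (opW S p t s).R r' = S.R r' := by
      have h1' : (opW S p t s).R r' ≠ none := h2 ▸ h1
      rw [opW_R_ne hr'] at h1' ⊢
      rcases wR_or S t r' with h | h
      · exact h
      · exact absurd h h1'
    rw [e1] at h1 h2 h3 h4
    rw [e2] at h2
    by_cases hq : S.R r = some p
    · have g1 : r = s := by
        by_contra h; exact hso r h (hq.trans hs.symm)
      have g2 : r' = s := by
        by_contra h; exact hso r' h ((h2.trans hq).trans hs.symm)
      rw [g1, g2]
    · refine hI.cov r r' h1 h2 ?_ ?_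
      · by_cases h : r = s
        · rw [h, hs, ← h]; exact Ne.symm hq
        · rwa [opW_c_ne h hr] at h3
      · by_cases h : r' = s
        · rw [h, hs]; exact Ne.symm hq
        · rwa [opW_c_ne h hr'] at h4

variable {Y Y' : Cache k P} {H E : Finset (Fin k)} {B : Finset (Option P)}

lemma opW_wt (hst : s ≠ t) (hct : S.c t ≠ some p) {a : Fin k} (h : a ≠ s) :
    (wt (opW S p t s) ∘ (Equiv.swap s t)) a ≤ wt S a := by
  simp only [Function.comp]
  by_cases h2 : a = t
  · subst h2
    rw [Equiv.swap_apply_right, wt_npin (opW_npin_s hst hct)]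
    exact one_le_wt S a
  · rw [Equiv.swap_apply_of_ne_of_ne h h2]
    by_cases hp : pin (opW S p t s) a
    · obtain ⟨g1, g2⟩ := hp
      rw [opW_c_ne h h2] at g1 g2
      rw [opW_R_ne h2] at g1
      have : pin S a := by
        rcases wR_or S t a with h' | h'
        · exact ⟨g1.trans h', g2⟩
        · exact absurd (g1.trans h') g2
      rw [wt_pin this]; exact wt_le _ _
    · rw [wt_npin hp]; exact one_le_wt S a

lemma W_core (hst : s ≠ t) (hct : S.c t ≠ some p) (hy : Y' t = some p) (D0 E0 : Finset (Fin k))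
    (h0 : D0 ⊆ dead S Y) (hs0 : s ∉ D0)
    (h1 : ∀ a, a ≠ s → a ≠ t → ¬ alive (opW S p t s) Y' a → a ∈ D0 ∪ E0)
    (h2 : ¬ alive (opW S p t s) Y' s → t ∈ D0 ∪ E0) :
    Ssum (dead (opW S p t s) Y') (opW S p t s).τ (wt (opW S p t s)) +
      2 * (dead S Y \ D0).card ≤ Ssum (dead S Y) S.τ (wt S) +
      Ssum E0 (Function.update S.τ s S.new) (wt (opW S p t s) ∘ (Equiv.swap s t)) := by
  rw [← Ssum_perm (Equiv.swap s t), opW_tau hst]
  have := Ssum_refresh S.τ (wt S) (wt (opW S p t s) ∘ (Equiv.swap s t)) s S.new S.lt_new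
    (fun a h => opW_wt hst hct h) (dead S Y)
    (univ.filter (fun a => Equiv.swap s t a ∈ dead (opW S p t s) Y')) D0 E0 h0 hs0 ?_ 0
    (Or.inl rfl)
  · simpa using this
  intro a ha
  simp only [mem_filter, mem_univ, true_and, mem_dead] at ha
  by_cases has : a = s
  · subst has
    rw [Equiv.swap_apply_left] at ha
    exact absurd (Or.inl ⟨opW_pin_t, by rw [opW_c_t, hy]⟩) ha
  · by_cases hat : a = t
    · subst hat
      rw [Equiv.swap_apply_right] at ha
      exact h2 ha
    · rw [Equiv.swap_apply_of_ne_of_ne has hat] at ha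
      exact h1 a has hat ha

lemma W_other (hI : Inv S) (hs : S.c s = some p) (hso : sole S s)
    (G : GStep S Y Y' p H E B) {a : Fin k} (has : a ≠ s) (hat : a ≠ t) (hE : a ∉ E)
    (h : alive S Y a) : alive (opW S p t s) Y' a := by
  refine alive_pres G opW_hR hE (opW_c_ne has hat)
    (fun hp => (opW_R_ne hat).trans (wR_pin S t hp)) (fun _ => ?_) h
  rw [← hs]
  exact sole_unique hI hso (by rw [hs]; simp) has

lemma W_alive_s (hst : s ≠ t) (hct : S.c t ≠ some p) (hn : S.c t ≠ none)
    (hu : ∀ r, r ≠ t → S.c r ≠ S.c t) (hy : ∃ r, Y' r = S.c t) : alive (opW S p t s) Y' s := by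
  rcases wc_or S t with ⟨-, -, r, g1, g2⟩ | ⟨g, g2, g3⟩
  · exact absurd g2 (hu r g1)
  · refine Or.inr ⟨?_, fun r _ => ?_⟩
    · rw [opW_c_s hst, g]
      exact ⟨hn, hy, fun j _ => opW_norec hct hn g2 g3 j⟩
    · rw [opW_c_s hst, g]
      exact opW_norec hct hn g2 g3 r

lemma W_sum0 (hI : Inv S) (hs : S.c s = some p) (hso : sole S s) (hct : S.c t ≠ some p)
    (G : GStep S Y Y' p H E B) (hy : Y' t = some p) :
    Ssum (dead (opW S p t s) Y') (opW S p t s).τ (wt (opW S p t s)) ≤
      Ssum (dead S Y) S.τ (wt S) +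
      Ssum (E.erase s) (Function.update S.τ s S.new) (wt (opW S p t s) ∘ (Equiv.swap s t)) := by
  have hst : s ≠ t := by rintro rfl; exact hct hs
  have := W_core (Y := Y) hst hct hy ((dead S Y).erase s) (E.erase s) (erase_subset _ _)
    (notMem_erase _ _) ?_ ?_
  · omega
  · intro a has hat ha
    by_cases hE : a ∈ E
    · exact mem_union_right _ (mem_erase.mpr ⟨has, hE⟩)
    · exact mem_union_left _ (mem_erase.mpr ⟨has, mem_dead.mpr fun h =>
        ha (W_other hI hs hso G has hat hE h)⟩)
  · intro ha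
    by_cases hE : t ∈ E
    · exact mem_union_right _ (mem_erase.mpr ⟨hst.symm, hE⟩)
    · refine mem_union_left _ (mem_erase.mpr ⟨hst.symm, mem_dead.mpr fun h => ha ?_⟩)
      rcases h with ⟨g1, g2⟩ | ⟨g1, g2⟩
      · exact absurd (g2.symm.trans ((G.hE1 t hE g1 g2).symm.trans hy)) hct
      · exact W_alive_s hst hct g1.1 (fun r hr => sole_unique hI g2 g1.1 hr) (G.hE2 t hE g1 g2)

lemma W_sum1 (hI : Inv S) (hs : S.c s = some p) (hso : sole S s) (hct : S.c t ≠ some p)
    (G : GStep S Y Y' p H E B) (hy : Y' t = some p) (hal : alive (opW S p t s) Y' s) :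
    Ssum (dead (opW S p t s) Y') (opW S p t s).τ (wt (opW S p t s)) +
      2 * (if t ∈ dead S Y then 1 else 0) ≤ Ssum (dead S Y) S.τ (wt S) +
      Ssum ((E.erase s).erase t) (Function.update S.τ s S.new)
        (wt (opW S p t s) ∘ (Equiv.swap s t)) := by
  have hst : s ≠ t := by rintro rfl; exact hct hs
  have := W_core (Y := Y) hst hct hy (((dead S Y).erase s).erase t) ((E.erase s).erase t)
    ((erase_subset _ _).trans (erase_subset _ _))
    (fun h => notMem_erase _ _ (mem_of_mem_erase h)) ?_ (fun h => absurd hal h)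
  · split_ifs with h
    · have : 1 ≤ (dead S Y \ ((dead S Y).erase s).erase t).card :=
        card_pos.mpr ⟨t, mem_sdiff.mpr ⟨h, notMem_erase _ _⟩⟩
      omega
    · omega
  · intro a has hat ha
    by_cases hE : a ∈ E
    · exact mem_union_right _ (mem_erase.mpr ⟨hat, mem_erase.mpr ⟨has, hE⟩⟩)
    · exact mem_union_left _ (mem_erase.mpr ⟨hat, mem_erase.mpr ⟨has, mem_dead.mpr fun h =>
        ha (W_other hI hs hso G has hat hE h)⟩⟩)

lemma W_kill (e : Fin k) (he : e ≠ s) :
    cr (Function.update S.τ s S.new) (wt (opW S p t s) ∘ (Equiv.swap s t)) e + 2 ≤ 2 * k := by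
  have := cr_kill S.τ (wt (opW S p t s) ∘ (Equiv.swap s t)) s S.new S.lt_new
    (fun a => wt_le _ _) e he 0 (Or.inl rfl)
  simpa using this

lemma W_del (hI : Inv S) (Y : Cache k P) (t : Fin k) :
    ∃ Del : Finset (Fin k), (∀ a, a ∉ Del → Fx S Y a → wR S t a = S.R a) ∧
      (Del = ∅ ∨ ∃ r, Del = {r} ∧ r ≠ t ∧ S.R r = S.c t ∧ Fx S Y r ∧
        ∀ r, r ≠ t → S.c r ≠ S.c t) := by
  rcases wc_or S t with ⟨-, g, -⟩ | ⟨-, g2, g3⟩
  · exact ⟨∅, fun a _ _ => by rw [g], Or.inl rfl⟩
  · obtain ⟨Del, h1, h2⟩ := del_cases hI Y t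
    refine ⟨Del, fun a ha hF => by rw [g2]; exact h1 a ha hF, ?_⟩
    rcases h2 with h2 | ⟨r, e1, e2, e3, -, e5⟩
    · exact Or.inl h2
    · exact Or.inr ⟨r, e1, e2, e3, e5, g3⟩

lemma W_u (hy : Y' t = some p) (hY : ∀ a, a ≠ t → Y' a = Y a) (Del : Finset (Fin k))
    (hD : ∀ a, a ∉ Del → Fx S Y a → wR S t a = S.R a) :
    (uset (opW S p t s) Y').card + (if Fx S Y t then 0 else 1) ≤ (uset S Y).card + Del.card := by
  have hF : Fx (opW S p t s) Y' t := ⟨by rw [opW_R_t, hy], by rw [opW_R_t]; simp⟩
  have hA : ∀ a, a ∉ Del → Fx S Y a → Fx (opW S p t s) Y' a := by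
    intro a ha h
    by_cases hat : a = t
    · rw [hat]; exact hF
    · refine ⟨?_, ?_⟩
      · rw [opW_R_ne hat, hD a ha h, hY a hat]; exact h.1
      · rw [opW_R_ne hat, hD a ha h]; exact h.2
  split_ifs with h
  · simpa using ucard (S := S) (S' := opW S p t s) (Y := Y) (Y' := Y') Del ∅ hA (by simp)
  · simpa using ucard (S := S) (S' := opW S p t s) (Y := Y) (Y' := Y') Del {t} hA (by
      intro a ha
      rw [mem_singleton.mp ha]
      exact ⟨h, hF⟩)

lemma W_z (hs : S.c s = some p) (G : GStep S Y Y' p H E B) :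
    (zset S Y).card ≤ (zset (opW S p t s) Y').card + B.card := by
  have h3 := zcard G (opW_hR (t := t) (s := s)) opW_hc t
  rw [if_neg (show some p ∉ zset S Y from fun h => (mem_zset.mp h).2.2.2 s hs)] at h3
  omega

theorem W_static (hI : Inv S) (hs : S.c s = some p) (hso : sole S s) (hct : S.c t ≠ some p)
    (hp : Y t = some p) :
    Phi (opW S p t s) Y + (zset S Y).card + 2 ≤ Phi S Y + (zset (opW S p t s) Y).card := by
  have hst : s ≠ t := by rintro rfl; exact hct hs
  have G := gstep_static S Y p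
  obtain ⟨Del, hD, hD'⟩ := W_del hI Y t
  have h2 := W_u (s := s) hp (fun _ _ => rfl) Del hD
  have hnF : ¬ Fx S Y t := fun h => hso t hst.symm ((h.1.symm.trans hp).trans hs.symm)
  rw [if_neg hnF] at h2
  have h3 := W_z (t := t) hs G
  have h4 : kap (opW S p t s) Y = 0 := kap_zero_of_npin Y (opW_npin_s hst hct)
  simp only [card_empty] at h3
  unfold Phi
  rcases hD' with rfl | ⟨r, rfl, g1, g2, g3, g4⟩
  · have h1 := W_sum0 hI hs hso hct G hp
    simp only [erase_empty, Ssum_empty, card_empty] at h1 h2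
    omega
  · have hn : S.c t ≠ none := g2 ▸ g3.2
    have h1 := W_sum1 hI hs hso hct G hp (W_alive_s hst hct hn g4 ⟨r, g3.1.trans g2⟩)
    have hd : t ∈ dead S Y := by
      rw [mem_dead]
      rintro (⟨-, e⟩ | ⟨e, -⟩)
      · exact hct (e.symm.trans hp)
      · exact e.2.2 r (g3.1.trans g2) g2
    rw [if_pos hd] at h1
    simp only [erase_empty, Ssum_empty, card_singleton] at h1 h2
    omega

theorem W_move (hI : Inv S) (hs : S.c s = some p) (hso : sole S s) (hct : S.c t ≠ some p)
    (hp : Y t ≠ some p) :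
    Phi (opW S p t s) (Function.update Y t (some p)) + (zset S Y).card + 2 ≤
      Phi S Y + (zset (opW S p t s) (Function.update Y t (some p))).card + 2 * k := by
  have hst : s ≠ t := by rintro rfl; exact hct hs
  have hk := two_le_of_ne hst
  have hp' : Function.update Y t (some p) t = some p := by simp
  obtain ⟨Del, hD, hD'⟩ := W_del hI Y t
  have h2 := W_u (s := s) (Y := Y) hp' (fun a h => Function.update_of_ne h _ _) Del hD
  have h4 : kap (opW S p t s) (Function.update Y t (some p)) = 0 :=
    kap_zero_of_npin _ (opW_npin_s hst hct)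
  have hDel : Del.card ≤ 1 := by
    rcases hD' with rfl | ⟨r, rfl, -⟩ <;> simp
  unfold Phi
  rcases gstep_move hI Y t p with ⟨hF, G⟩ | ⟨hF, e, he1, he2, he3, G⟩ | ⟨hF, G⟩
  · have h3 := W_z (t := t) hs G
    rw [if_pos hF] at h2
    simp only [card_empty] at h3
    rcases hD' with rfl | ⟨r, rfl, g1, g2, g3, g4⟩
    · have h1 := W_sum0 hI hs hso hct G hp'
      simp only [card_empty] at h2
      by_cases hpt : pin S t
      · rw [if_pos hpt, erase_eq_of_notMem (s := {t}) (by simpa using hst), Ssum_single] at h1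
        have := W_kill (S := S) (p := p) (t := t) t hst.symm
        omega
      · rw [if_neg hpt, erase_empty, Ssum_empty] at h1
        omega
    · have hn : S.c t ≠ none := g2 ▸ g3.2
      have h1 := W_sum1 hI hs hso hct G hp' (W_alive_s hst hct hn g4
        ⟨r, by rw [Function.update_of_ne g1]; exact g3.1.trans g2⟩)
      have hE : ((if pin S t then ({t} : Finset (Fin k)) else ∅).erase s).erase t = ∅ := by
        split_ifs
        · rw [erase_eq_of_notMem (s := {t}) (by simpa using hst), erase_singleton]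
        · simp
      rw [hE, Ssum_empty] at h1
      simp only [card_singleton] at h2
      omega
  · have h3 := W_z (t := t) hs G
    rw [if_neg hF] at h2
    have hes : e ≠ s := by
      rintro rfl
      exact hp (he1.symm.trans hs)
    have h1 := W_sum0 hI hs hso hct G hp'
    rw [erase_eq_of_notMem (s := {e}) (by simpa using hes.symm), Ssum_single] at h1
    have := W_kill (S := S) (p := p) (t := t) e hes
    simp only [card_empty] at h3
    omega
  · have h3 := W_z (t := t) hs G
    rw [if_neg hF] at h2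
    have h1 := W_sum0 hI hs hso hct G hp'
    simp only [erase_empty, Ssum_empty, card_singleton] at h1 h3
    omega

end W

end Pool.Agent.P.MP_dee2e2_lc
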