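import Pool.Agent.P.MP_dee2e2_lc.Main

open Pool.Agent.P.MP_dee2e2_lc in
/-- All-or-One Paging has a `2k`-competitive deterministic online algorithm. -/
theorem Pool.Agent.P.MP_dee2e2_lc.upperTwoK_old (k : ℕ) (hk : 1 ≤ k) (P : Type)
    (C₀ : Cache k P) : ∃ A : OnlineAlg k P, Competitive C₀ A (2 * (k : ℝ)) :=
  upper_two_k k hk P C₀
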